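import Mathlib

set_option autoImplicit false

/-!
# Polynomial sequences in a filtered group and the Hall-Petrescu congruence (weak form)
-/

namespace Pool.H67.Esq.TF

open Subgroup
open scoped commutatorElement

universe u

section Filt

variable {G : Type u} [Group G]

/-- three subgroups lemma relative to a normal subgroup -/
lemma three (N : Subgroup G) [N.Normal] (A B C : Subgroup G) (h1 : ⁅⁅B, C⁆, A⁆ ≤ N)
    (h2 : ⁅⁅C, A⁆, B⁆ ≤ N) : ⁅⁅A, B⁆, C⁆ ≤ N := by
  have key : ∀ X : Subgroup G, X ≤ N ↔ X.map (QuotientGroup.mk' N) = ⊥ := by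
    intro X
    rw [Subgroup.map_eq_bot_iff, QuotientGroup.ker_mk']
  rw [key, map_commutator, map_commutator] at *
  exact commutator_commutator_eq_bot_of_rotate h1 h2

/-- the lower central series is a filtration -/
lemma lcs_comm (i j : ℕ) : ⁅(⊤ : Subgroup G).lowerCentralSeries i,
    (⊤ : Subgroup G).lowerCentralSeries j⁆ ≤ (⊤ : Subgroup G).lowerCentralSeries (i + j + 1) := by
  induction j generalizing i with
  | zero => simp
  | succ j ih =>
    rw [commutator_comm, Subgroup.lowerCentralSeries_succ (⊤ : Subgroup G) j]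
    refine three _ _ _ _ ?_ ?_
    · rw [commutator_comm ⊤, ← Subgroup.lowerCentralSeries_succ]
      refine (ih (i + 1)).trans (le_of_eq ?_)
      congr 1; omega
    · refine (commutator_mono (ih i) le_rfl).trans (le_of_eq ?_)
      rw [← Subgroup.lowerCentralSeries_succ]
      congr 1

/-- a filtration with commutators -/
structure IsFilt (F : ℕ → Subgroup G) : Prop where
  anti : Antitone F
  comm : ∀ i j, ⁅F i, F j⁆ ≤ F (i + j)

/-- polynomial sequences of level `i`, with `k` derivatives controlled -/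
def PS (F : ℕ → Subgroup G) : ℕ → ℕ → Set (ℕ → G)
  | 0, i => {f | ∀ n, f n ∈ F i}
  | k + 1, i => {f | f ∈ PS F k i ∧ (fun n => (f n)⁻¹ * f (n + 1)) ∈ PS F k (i + 1)}

/-- all closure properties of `PS F k` -/
structure PSGood (F : ℕ → Subgroup G) (k : ℕ) : Prop where
  one : ∀ i, (fun _ => (1 : G)) ∈ PS F k i
  mul : ∀ i f g, f ∈ PS F k i → g ∈ PS F k i → (fun n => f n * g n) ∈ PS F k i
  inv : ∀ i f, f ∈ PS F k i → (fun n => (f n)⁻¹) ∈ PS F k i
  anti : ∀ i j f, i ≤ j → f ∈ PS F k j → f ∈ PS F k i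
  comm : ∀ i j f g, f ∈ PS F k i → g ∈ PS F k j → (fun n => ⁅f n, g n⁆) ∈ PS F k (i + j)

lemma PSGood.conj {F : ℕ → Subgroup G} {k : ℕ} (h : PSGood F k) (i j : ℕ) (f g : ℕ → G)
    (hf : f ∈ PS F k i) (hg : g ∈ PS F k j) : (fun n => g n * f n * (g n)⁻¹) ∈ PS F k i := by
  have h1 := h.comm j i g f hg hf
  have h2 := h.mul i _ _ (h.anti i (j + i) _ (by omega) h1) hf
  have e : (fun n => g n * f n * (g n)⁻¹) = fun n => ⁅g n, f n⁆ * f n := by
    funext n; simp [commutatorElement_def]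
  rw [e]; exact h2

lemma PSGood.conj' {F : ℕ → Subgroup G} {k : ℕ} (h : PSGood F k) (i j : ℕ) (f g : ℕ → G)
    (hf : f ∈ PS F k i) (hg : g ∈ PS F k j) : (fun n => (g n)⁻¹ * f n * g n) ∈ PS F k i := by
  have := h.conj i j f (fun n => (g n)⁻¹) hf (h.inv _ _ hg)
  simpa using this

lemma psGood {F : ℕ → Subgroup G} (hF : IsFilt F) (k : ℕ) : PSGood F k := by
  induction k with
  | zero =>
    refine ⟨fun i n => one_mem _, fun i f g hf hg n => mul_mem (hf n) (hg n),
      fun i f hf n => inv_mem (hf n), fun i j f hij hf n => hF.anti hij (hf n), ?_⟩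
    intro i j f g hf hg n
    exact hF.comm i j (commutator_mem_commutator (hf n) (hg n))
  | succ k ih =>
    refine ⟨?_, ?_, ?_, ?_, ?_⟩
    · intro i
      refine ⟨ih.one i, ?_⟩
      simpa using ih.one (i + 1)
    · rintro i f g ⟨hf, hf'⟩ ⟨hg, hg'⟩
      refine ⟨ih.mul _ _ _ hf hg, ?_⟩
      have h1 := ih.mul _ _ _ (ih.conj' (i + 1) i _ _ hf' hg) hg'
      have e : (fun n => (f n * g n)⁻¹ * (f (n + 1) * g (n + 1))) =
          fun n => ((g n)⁻¹ * ((f n)⁻¹ * f (n + 1)) * g n) * ((g n)⁻¹ * g (n + 1)) := by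
        funext n; group
      rw [e]; exact h1
    · rintro i f ⟨hf, hf'⟩
      refine ⟨ih.inv _ _ hf, ?_⟩
      have h1 := ih.inv _ _ (ih.conj (i + 1) i _ _ hf' hf)
      have e : (fun n => ((f n)⁻¹)⁻¹ * (f (n + 1))⁻¹) =
          fun n => (f n * ((f n)⁻¹ * f (n + 1)) * (f n)⁻¹)⁻¹ := by
        funext n; group
      rw [e]; exact h1
    · rintro i j f hij ⟨hf, hf'⟩
      exact ⟨ih.anti _ _ _ hij hf, ih.anti _ _ _ (by omega) hf'⟩
    · rintro i j f g ⟨hf, hf'⟩ ⟨hg, hg'⟩
      refine ⟨ih.comm _ _ _ _ hf hg, ?_⟩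
      -- the four pieces
      set a : ℕ → G := fun n => (f n)⁻¹ * f (n + 1) with ha
      set b : ℕ → G := fun n => (g n)⁻¹ * g (n + 1) with hb
      -- f(n+1) = f a, g(n+1) = g b ; ⁅f a, g b⁆ = f ⁅a, g b⁆ f⁻¹ ⁅f, g b⁆,
      -- ⁅f, g b⁆ = ⁅f, g⁆ * g ⁅f, b⁆ g⁻¹
      have hgb : (fun n => g n * b n) ∈ PS F k j :=
        ih.mul _ _ _ hg (ih.anti _ _ _ (by omega) hg')
      have h1 : (fun n => ⁅a n, g n * b n⁆) ∈ PS F k (i + j + 1) := by
        have := ih.comm _ _ _ _ hf' hgb
        refine ih.anti _ _ _ ?_ this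
        omega
      have h2 : (fun n => f n * ⁅a n, g n * b n⁆ * (f n)⁻¹) ∈ PS F k (i + j + 1) :=
        ih.conj _ _ _ _ h1 hf
      have h3 : (fun n => ⁅f n, b n⁆) ∈ PS F k (i + j + 1) := by
        have := ih.comm _ _ _ _ hf hg'
        refine ih.anti _ _ _ ?_ this
        omega
      have h4 : (fun n => g n * ⁅f n, b n⁆ * (g n)⁻¹) ∈ PS F k (i + j + 1) :=
        ih.conj _ _ _ _ h3 hg
      have h5 := ih.comm _ _ _ _ hf hg
      have h6 := ih.mul _ _ _ (ih.conj' (i + j + 1) (i + j) _ _ h2 h5) h4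
      have e : (fun n => (⁅f n, g n⁆)⁻¹ * ⁅f (n + 1), g (n + 1)⁆) =
          fun n => ((⁅f n, g n⁆)⁻¹ * (f n * ⁅a n, g n * b n⁆ * (f n)⁻¹) * ⁅f n, g n⁆) *
            (g n * ⁅f n, b n⁆ * (g n)⁻¹) := by
        funext n
        simp only [ha, hb, commutatorElement_def]
        group
      rw [e]; exact h6

lemma PS_corner {F : ℕ → Subgroup G} (k i : ℕ) (f : ℕ → G) (hf : f ∈ PS F k i)
    (h0 : ∀ n < k, f n = 1) : f k ∈ F (i + k) := by
  induction k generalizing f i with
  | zero => exact hf 0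
  | succ k ih =>
    obtain ⟨h1, h2⟩ := hf
    have h3 := ih (i + 1) _ h2 (by
      intro n hn
      simp [h0 n (by omega), h0 (n + 1) (by omega)])
    simp only [h0 k (by omega), inv_one, one_mul] at h3
    have e : i + (k + 1) = i + 1 + k := by omega
    rw [e]; exact h3

lemma PS_mono {F : ℕ → Subgroup G} {k l : ℕ} (h : l ≤ k) (i : ℕ) (f : ℕ → G)
    (hf : f ∈ PS F k i) : f ∈ PS F l i := by
  induction k with
  | zero => 
    have : l = 0 := by omega
    subst this; exact hf
  | succ k ih =>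
    rcases Nat.lt_or_ge l (k + 1) with h1 | h1
    · exact ih (by omega) hf.1
    · have : l = k + 1 := by omega
      subst this; exact hf

lemma PS_const {F : ℕ → Subgroup G} (hF : IsFilt F) (k i : ℕ) (g : G) (hg : g ∈ F i) :
    (fun _ => g) ∈ PS F k i := by
  induction k with
  | zero => exact fun _ => hg
  | succ k ih =>
    refine ⟨ih, ?_⟩
    simpa using (psGood hF k).one (i + 1)

lemma PS_choose {F : ℕ → Subgroup G} (hF : IsFilt F) (k i j : ℕ) (g : G) (hg : g ∈ F (i + j)) :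
    (fun n => g ^ (Nat.choose n j)) ∈ PS F k i := by
  induction k generalizing i j with
  | zero => exact fun n => pow_mem (hF.anti (by omega) hg) _
  | succ k ih =>
    refine ⟨ih i j hg, ?_⟩
    rcases j with _ | j
    · simpa using (psGood hF k).one (i + 1)
    · have e : (fun n => (g ^ (Nat.choose n (j + 1)))⁻¹ * g ^ (Nat.choose (n + 1) (j + 1))) =
          fun n => g ^ (Nat.choose n j) := by
        funext n
        rw [Nat.choose_succ_succ, Nat.add_comm (Nat.choose n j), pow_add, ← mul_assoc, inv_mul_cancel,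
          one_mul]
      rw [e]
      refine ih (i + 1) j ?_
      have : i + 1 + j = i + (j + 1) := by omega
      rw [this]; exact hg

/-- the subgroup generated by the `q`-th powers of the elements of `H` -/
def pw (H : Subgroup G) (q : ℕ) : Subgroup G := Subgroup.closure {z | ∃ h ∈ H, z = h ^ q}

lemma pw_mono {H K : Subgroup G} (h : H ≤ K) (q : ℕ) : pw H q ≤ pw K q := by
  refine Subgroup.closure_mono ?_
  rintro z ⟨a, ha, rfl⟩
  exact ⟨a, h ha, rfl⟩

lemma pow_mem_pw {H : Subgroup G} {h : G} (hh : h ∈ H) (q : ℕ) : h ^ q ∈ pw H q :=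
  Subgroup.subset_closure ⟨h, hh, rfl⟩

lemma pw_le (H : Subgroup G) (q : ℕ) : pw H q ≤ H := by
  refine (Subgroup.closure_le _).2 ?_
  rintro z ⟨a, ha, rfl⟩
  exact pow_mem ha q

/-- the filtration `K, K, γ_2 K, γ_3 K, …` -/
def gam (K : Subgroup G) (n : ℕ) : Subgroup G := K.lowerCentralSeries (n - 1)

lemma sub_lcs_comm (K : Subgroup G) (i j : ℕ) : ⁅K.lowerCentralSeries i,
    K.lowerCentralSeries j⁆ ≤ K.lowerCentralSeries (i + j + 1) := by
  rw [← top_subtype_lowerCentralSeries K i, ← top_subtype_lowerCentralSeries K j,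
    ← top_subtype_lowerCentralSeries K (i + j + 1), ← map_commutator]
  exact Subgroup.map_mono (lcs_comm i j)

lemma gam_filt (K : Subgroup G) : IsFilt (gam K) := by
  refine ⟨fun i j h => K.lowerCentralSeries_antitone (by omega), fun i j => ?_⟩
  refine (sub_lcs_comm K (i - 1) (j - 1)).trans (K.lowerCentralSeries_antitone ?_)
  omega

lemma dvd_choose_of_lt {p : ℕ} [hp : Fact p.Prime] (k j : ℕ) (h1 : 1 ≤ j) (h2 : j < p) :
    p ^ k ∣ Nat.choose (p ^ k) j := by
  obtain ⟨j, rfl⟩ : ∃ i, j = i + 1 := ⟨j - 1, by omega⟩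
  have hpos : 0 < p ^ k := pow_pos hp.out.pos k
  obtain ⟨m, hm⟩ : ∃ m, p ^ k = m + 1 := ⟨p ^ k - 1, by omega⟩
  have h := Nat.add_one_mul_choose_eq m j
  rw [← hm] at h
  have hc : Nat.Coprime (p ^ k) (j + 1) := by
    refine Nat.Coprime.pow_left k ?_
    rw [hp.out.coprime_iff_not_dvd]
    intro hd
    have := Nat.le_of_dvd (by omega) hd
    omega
  exact hc.dvd_of_dvd_mul_right (Dvd.intro _ h)

lemma taylor {p : ℕ} [hp : Fact p.Prime] (k : ℕ) (K : Subgroup G)
    (hK : K.lowerCentralSeries (p - 1) = ⊥) (d j : ℕ) (hj : 2 ≤ j) (hjd : j + d = p)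
    (f : ℕ → G) (hf : ∀ l, f ∈ PS (gam K) l 0) (h0 : ∀ n < j, f n = 1) :
    f (p ^ k) ∈ pw ⁅K, K⁆ (p ^ k) := by
  induction d generalizing j f with
  | zero =>
    have hall : ∀ n, f n = 1 := by
      intro n
      induction n using Nat.strong_induction_on with
      | _ n ih =>
        rcases Nat.lt_or_ge n j with h | h
        · exact h0 n h
        · have h1 := PS_corner n 0 f (hf n) ih
          rw [Nat.zero_add] at h1
          have h2 : gam K n ≤ ⊥ := by
            rw [← hK]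
            exact K.lowerCentralSeries_antitone (by omega)
          simpa using h2 h1
    rw [hall]
    exact one_mem _
  | succ d ih =>
    set g := f j with hg
    have hgj : g ∈ gam K j := by
      have := PS_corner j 0 f (hf j) h0
      simpa using this
    have hg2 : g ∈ ⁅K, K⁆ := by
      have := (gam_filt K).anti hj hgj
      simpa [gam] using this
    have h1 := ih (j + 1) (by omega) (by omega) (fun n => f n * (g⁻¹) ^ (Nat.choose n j)) (by
      intro l
      exact (psGood (gam_filt K) l).mul 0 _ _ (hf l)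
        (PS_choose (gam_filt K) l 0 j g⁻¹ (by simpa using hgj))) (by
      intro n hn
      rcases Nat.lt_or_ge n j with h | h
      · simp [h0 n h, Nat.choose_eq_zero_of_lt h]
      · have : n = j := by omega
        subst this
        simp [hg])
    obtain ⟨m, hm⟩ := dvd_choose_of_lt (p := p) k j (by omega) (by omega)
    have h2 : g ^ (Nat.choose (p ^ k) j) ∈ pw ⁅K, K⁆ (p ^ k) := by
      rw [hm, mul_comm, pow_mul]
      exact pow_mem_pw (pow_mem hg2 m) _
    have h3 := mul_mem h1 h2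
    simpa using h3

/-- weak Hall-Petrescu congruence in class less than `p` -/
theorem hp_hp {p : ℕ} [hp : Fact p.Prime] (k : ℕ) (K : Subgroup G)
    (hK : K.lowerCentralSeries (p - 1) = ⊥) {x y : G} (hx : x ∈ K) (hy : y ∈ K) :
    (y ^ (p ^ k))⁻¹ * (x ^ (p ^ k))⁻¹ * (x * y) ^ (p ^ k) ∈ pw ⁅K, K⁆ (p ^ k) := by
  have hp2 := hp.out.two_le
  have key := taylor (p := p) k K hK (p - 2) 2 le_rfl (by omega)
    (fun n => (y ^ n)⁻¹ * (x ^ n)⁻¹ * (x * y) ^ n) (by
      intro l
      have hg := psGood (gam_filt K) l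
      have hpow : ∀ g ∈ K, (fun n => g ^ n) ∈ PS (gam K) l 0 := by
        intro g hgK
        have := PS_choose (gam_filt K) l 0 1 g (by simpa [gam] using hgK)
        simpa using this
      exact hg.mul 0 _ _ (hg.mul 0 _ _ (hg.inv 0 _ (hpow y hy)) (hg.inv 0 _ (hpow x hx)))
        (hpow _ (mul_mem hx hy))) (by
      intro n hn
      interval_cases n
      · simp
      · simp [mul_assoc])
  exact key

end Filt

end Pool.H67.Esq.TF
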