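import Pool.Agent.H67.Esq.Lamp2
import Pool.Agent.H67.Esq.TF.Poly

set_option autoImplicit false

/-!
# Linear algebra: many independent lamps for one generator
-/

namespace Pool.H67.Esq.TF

open Subgroup Module

universe u

section

variable {p : ℕ} [hp : Fact p.Prime] {G : Type*} [Group G] {V E ι : Type*} [AddCommGroup V]
  [Module (ZMod p) V] [AddCommGroup E] [Module (ZMod p) E] [Fintype ι]

/-- the span of the translates of `v` by the ball of radius `n` -/
def bs (S : Finset G) (ρ : G →* Module.End (ZMod p) V) (v : ι → V) (n : ℕ) :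
    Submodule (ZMod p) V :=
  Submodule.span (ZMod p) ((fun x : G × ι => ρ x.1 (v x.2)) '' (wordBall S n ×ˢ Set.univ))

omit [Fintype ι] in
lemma bs_mono (S : Finset G) (ρ : G →* Module.End (ZMod p) V) (v : ι → V) {m n : ℕ}
    (h : m ≤ n) : bs S ρ v m ≤ bs S ρ v n :=
  Submodule.span_mono (Set.image_mono (Set.prod_mono (wordBall_mono S h) le_rfl))

lemma bs_set_finite (S : Finset G) (n : ℕ) :
    (wordBall S n ×ˢ (Set.univ : Set ι)).Finite :=
  (wordBall_finite S n).prod Set.finite_univ

instance bs_finite (S : Finset G) (ρ : G →* Module.End (ZMod p) V) (v : ι → V) (n : ℕ) :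
    Module.Finite (ZMod p) (bs S ρ v n) :=
  Module.Finite.span_of_finite (ZMod p) ((bs_set_finite S n).image _)

omit [Fintype ι] in
lemma bs_step (S : Finset G) (ρ : G →* Module.End (ZMod p) V) (v : ι → V) (n : ℕ) {s : G}
    (hs : s ∈ S ∨ s⁻¹ ∈ S) {x : V} (hx : x ∈ bs S ρ v n) : ρ s x ∈ bs S ρ v (n + 1) := by
  unfold bs at hx
  induction hx using Submodule.span_induction with
  | mem x hx =>
    obtain ⟨⟨g, t⟩, ⟨⟨l, h1, h2, h3⟩, -⟩, rfl⟩ := hx
    refine Submodule.subset_span ⟨(s * g, t), ⟨⟨s :: l, by simpa using h1, ?_, ?_⟩, trivial⟩, ?_⟩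
    · intro a ha
      rcases List.mem_cons.1 ha with rfl | ha
      · exact hs
      · exact h2 a ha
    · rw [List.prod_cons, h3]
    · change ρ (s * g) (v t) = ρ s (ρ g (v t))
      rw [map_mul]; rfl
  | zero => rw [map_zero]; exact Submodule.zero_mem _
  | add x y _ _ hx hy => rw [map_add]; exact Submodule.add_mem _ hx hy
  | smul c x _ hx => rw [map_smul]; exact Submodule.smul_mem _ _ hx

omit [Fintype ι] in
lemma v_mem_bs (S : Finset G) (ρ : G →* Module.End (ZMod p) V) (v : ι → V) (n : ℕ) (t : ι) :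
    v t ∈ bs S ρ v n :=
  Submodule.subset_span ⟨(1, t), ⟨one_mem_wordBall S n, trivial⟩, by
    change ρ 1 (v t) = v t
    rw [map_one]; rfl⟩

omit [Fintype ι] in
lemma bs_stable (S : Finset G) (hS : closure (S : Set G) = ⊤) (ρ : G →* Module.End (ZMod p) V)
    (v : ι → V) (hspan : Submodule.span (ZMod p) {x | ∃ g t, x = ρ g (v t)} = ⊤) (n : ℕ)
    (h : bs S ρ v (n + 1) ≤ bs S ρ v n) : bs S ρ v n = ⊤ := by
  rw [eq_top_iff, ← hspan, Submodule.span_le]
  rintro _ ⟨g, t, rfl⟩
  obtain ⟨k, l, -, h2, h3⟩ := exists_mem_wordBall S hS g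
  have key : ∀ l : List G, (∀ a ∈ l, a ∈ S ∨ a⁻¹ ∈ S) → ∀ x ∈ bs S ρ v n,
      ρ l.prod x ∈ bs S ρ v n := by
    intro l
    induction l with
    | nil => intro _ x hx; rw [List.prod_nil, map_one]; exact hx
    | cons a l ih =>
      intro hl x hx
      rw [List.prod_cons, map_mul]
      exact h (bs_step S ρ v n (hl a (by simp)) (ih (fun b hb => hl b (by simp [hb])) x hx))
  rw [← h3]
  exact key l h2 _ (v_mem_bs S ρ v n t)

lemma bs_finrank (S : Finset G) (hS : closure (S : Set G) = ⊤) (ρ : G →* Module.End (ZMod p) V)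
    (v : ι → V) (hspan : Submodule.span (ZMod p) {x | ∃ g t, x = ρ g (v t)} = ⊤) (m : ℕ)
    (w : Fin m → V) (hw : LinearIndependent (ZMod p) w) (n : ℕ) :
    min n m ≤ finrank (ZMod p) (bs S ρ v n) := by
  induction n with
  | zero => simp
  | succ n ih =>
    by_cases h : bs S ρ v (n + 1) ≤ bs S ρ v n
    · have h1 := bs_stable S hS ρ v hspan n h
      have h2 : bs S ρ v (n + 1) = ⊤ := by
        rw [eq_top_iff, ← h1]; exact bs_mono S ρ v (by omega)
      have h3 : Module.Finite (ZMod p) (⊤ : Submodule (ZMod p) V) := by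
        rw [← h2]; infer_instance
      have h4 : Module.Finite (ZMod p) V := Module.Finite.of_surjective
        (⊤ : Submodule (ZMod p) V).subtype (fun x => ⟨⟨x, trivial⟩, rfl⟩)
      have h5 := hw.fintype_card_le_finrank
      rw [h2, finrank_top]
      rw [Fintype.card_fin] at h5
      omega
    · have h1 : bs S ρ v n < bs S ρ v (n + 1) :=
        lt_of_le_of_ne (bs_mono S ρ v (by omega)) (fun he => h (le_of_eq he.symm))
      have h2 := Submodule.finrank_lt_finrank_of_lt h1
      omega

omit [Fintype ι] in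
lemma bs_le (S T : Finset G) (hT : ∀ s : G, s ∈ S ∨ s⁻¹ ∈ S → s ∈ T)
    (ρ : G →* Module.End (ZMod p) V) (v : ι → V) (m n : ℕ) (hn : n ≤ m) :
    bs S ρ v n ≤ bs S ρ v 0 ⊔ T.sup (fun s => (bs S ρ v m).map (ρ s - 1)) := by
  induction n with
  | zero => exact le_sup_left
  | succ n ih =>
    have IH := ih (by omega)
    unfold bs
    rw [Submodule.span_le]
    rintro _ ⟨⟨g, t⟩, ⟨⟨l, h1, h2, h3'⟩, -⟩, rfl⟩
    have h3 : l.prod = g := h3'
    change ρ g (v t) ∈ _
    cases l with
    | nil =>
      rw [List.prod_nil] at h3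
      rw [← h3, map_one]
      exact (le_sup_left : bs S ρ v 0 ≤ _) (v_mem_bs S ρ v 0 t)
    | cons a l =>
      rw [List.prod_cons] at h3
      have hlg : ρ l.prod (v t) ∈ bs S ρ v n :=
        Submodule.subset_span ⟨(l.prod, t), ⟨⟨l, by simpa using h1,
          fun b hb => h2 b (by simp [hb]), rfl⟩, trivial⟩, rfl⟩
      have e : ρ g (v t) = (ρ a - 1) (ρ l.prod (v t)) + ρ l.prod (v t) := by
        rw [← h3, map_mul]
        simp
      rw [e]
      refine Submodule.add_mem _ ?_ (IH hlg)
      refine (le_sup_right : _ ≤ bs S ρ v 0 ⊔ T.sup (fun s => (bs S ρ v m).map (ρ s - 1))) ?_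
      have hle := Finset.le_sup (f := fun s => (bs S ρ v m).map (ρ s - 1)) (hT a (h2 a (by simp)))
      exact hle ⟨_, bs_mono S ρ v (by omega) hlg, rfl⟩

omit [Group G] in
lemma finrank_sup_le (W0 : Submodule (ZMod p) V) [Module.Finite (ZMod p) W0] (T : Finset G)
    (M : G → Submodule (ZMod p) V) [∀ s, Module.Finite (ZMod p) (M s)] :
    finrank (ZMod p) (W0 ⊔ T.sup M : Submodule (ZMod p) V) ≤
      finrank (ZMod p) W0 + ∑ s ∈ T, finrank (ZMod p) (M s) := by
  classical
  induction T using Finset.induction_on with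
  | empty => rw [Finset.sup_empty, sup_bot_eq]; simp
  | insert a T ha ih =>
    rw [Finset.sup_insert, Finset.sum_insert ha]
    have h1 : W0 ⊔ (M a ⊔ T.sup M) = M a ⊔ (W0 ⊔ T.sup M) := by
      rw [← sup_assoc, sup_comm W0, sup_assoc]
    rw [h1]
    have h2 := Submodule.finrank_add_le_finrank_add_finrank (M a) (W0 ⊔ T.sup M)
    omega

omit [Fintype ι] in
lemma finrank_map_le (W : Submodule (ZMod p) V) [Module.Finite (ZMod p) W]
    (f : V →ₗ[ZMod p] E) (g : V →ₗ[ZMod p] V) (h : ∀ x, f x = 0 → g x = 0) :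
    finrank (ZMod p) (W.map g) ≤ finrank (ZMod p) (W.map f) := by
  have h1 := (f.domRestrict W).finrank_range_add_finrank_ker
  have h2 := (g.domRestrict W).finrank_range_add_finrank_ker
  rw [LinearMap.range_domRestrict] at h1 h2
  have h3 : finrank (ZMod p) (LinearMap.ker (f.domRestrict W)) ≤
      finrank (ZMod p) (LinearMap.ker (g.domRestrict W)) := by
    apply Submodule.finrank_mono
    intro x hx
    rw [LinearMap.mem_ker] at hx ⊢
    exact h _ hx
  omega

/-- **Selection of lamps.** -/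
theorem alg (S : Finset G) (hSne : S.Nonempty) (hS : closure (S : Set G) = ⊤)
    (ρ : G →* Module.End (ZMod p) V)
    (v : ι → V) (hspan : Submodule.span (ZMod p) {x | ∃ g t, x = ρ g (v t)} = ⊤) (m : ℕ)
    (w : Fin m → V) (hw : LinearIndependent (ZMod p) w) (β : G → V →ₗ[ZMod p] E)
    (hker : ∀ s x, β s x = 0 → ρ s x = x) :
    ∃ s ∈ wordBall S 1, ∃ r : ℕ, r ≤ m ∧ m ≤ Fintype.card ι + 2 * S.card * r ∧
      ∃ (g : Fin r → G) (t : Fin r → ι), (∀ j, g j ∈ wordBall S m) ∧
        LinearIndependent (ZMod p) (fun j => β s (ρ (g j) (v (t j)))) := by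
  classical
  set T : Finset G := S ∪ S.image (fun x => x⁻¹) with hT
  have hTm : ∀ s : G, s ∈ S ∨ s⁻¹ ∈ S → s ∈ T := by
    rintro s (hs | hs)
    · exact Finset.mem_union_left _ hs
    · exact Finset.mem_union_right _ (Finset.mem_image.2 ⟨s⁻¹, hs, inv_inv s⟩)
  have hTb : ∀ s ∈ T, s ∈ wordBall S 1 := by
    intro s hs
    rcases Finset.mem_union.1 hs with hs | hs
    · exact gen_mem_wordBall S hs
    · obtain ⟨x, hx, rfl⟩ := Finset.mem_image.1 hs
      exact inv_mem_wordBall S (gen_mem_wordBall S hx)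
  have hTc : T.card ≤ 2 * S.card := by
    have h1 := Finset.card_union_le S (S.image (fun x => x⁻¹))
    have h2 := Finset.card_image_le (s := S) (f := fun x : G => x⁻¹)
    rw [← hT] at h1
    omega
  have hTne : T.Nonempty := hSne.mono Finset.subset_union_left
  obtain ⟨s, hs, hmax⟩ := T.exists_max_image
    (fun s => finrank (ZMod p) ((bs S ρ v m).map (β s))) hTne
  set r0 := finrank (ZMod p) ((bs S ρ v m).map (β s)) with hr0
  have h1 : m ≤ finrank (ZMod p) (bs S ρ v m) := by
    have := bs_finrank S hS ρ v hspan m w hw m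
    simpa using this
  have h2 : finrank (ZMod p) (bs S ρ v m) ≤
      finrank (ZMod p) (bs S ρ v 0 ⊔ T.sup (fun s => (bs S ρ v m).map (ρ s - 1)) :
        Submodule (ZMod p) V) := by
    have : Module.Finite (ZMod p)
        (T.sup (fun s => (bs S ρ v m).map (ρ s - 1)) : Submodule (ZMod p) V) :=
      Submodule.finite_finset_sup T _
    exact Submodule.finrank_mono (bs_le S T hTm ρ v m m le_rfl)
  have h3 := finrank_sup_le (p := p) (bs S ρ v 0) T (fun s => (bs S ρ v m).map (ρ s - 1))
  have h4 : finrank (ZMod p) (bs S ρ v 0) ≤ Fintype.card ι := by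
    have : bs S ρ v 0 ≤ Submodule.span (ZMod p) (Set.range v) := by
      unfold bs
      refine Submodule.span_mono ?_
      rintro _ ⟨⟨g, t⟩, ⟨⟨l, hl1, -, hl3⟩, -⟩, rfl⟩
      have : l = [] := List.length_eq_zero_iff.1 (Nat.le_zero.1 hl1)
      subst this
      refine ⟨t, ?_⟩
      have hl4 : (1 : G) = g := hl3
      change v t = ρ g (v t)
      rw [← hl4, map_one]; rfl
    have hfin : Module.Finite (ZMod p) (Submodule.span (ZMod p) (Set.range v)) :=
      Module.Finite.span_of_finite (ZMod p) (Set.finite_range v)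
    exact (Submodule.finrank_mono this).trans (finrank_range_le_card v)
  have h5 : ∑ s' ∈ T, finrank (ZMod p) ((bs S ρ v m).map (ρ s' - 1)) ≤ T.card * r0 := by
    rw [← smul_eq_mul]
    refine Finset.sum_le_card_nsmul T _ r0 fun s' hs' => ?_
    refine (finrank_map_le (bs S ρ v m) (β s') (ρ s' - 1) (fun x hx => ?_)).trans (hmax s' hs')
    rw [LinearMap.sub_apply, Module.End.one_apply, hker s' x hx, sub_self]
  have h6 : m ≤ Fintype.card ι + 2 * S.card * r0 := by
    have h7 : T.card * r0 ≤ 2 * S.card * r0 := Nat.mul_le_mul_right _ hTc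
    omega
  refine ⟨s, hTb s hs, min r0 m, min_le_right _ _, ?_, ?_⟩
  · rcases le_total r0 m with h | h
    · rw [min_eq_left h]; exact h6
    · rw [min_eq_right h]
      have hc : 1 ≤ S.card := hSne.card_pos
      nlinarith
  · -- independent vectors
    set W' := (bs S ρ v m).map (β s) with hW'
    let b := Module.finBasis (ZMod p) W'
    have hb : LinearIndependent (ZMod p) (fun i => ((b i : W') : E)) :=
      b.linearIndependent.map' W'.subtype (Submodule.ker_subtype W')
    have hle : min r0 m ≤ finrank (ZMod p) W' := min_le_left _ _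
    obtain ⟨j, hj1, hj2⟩ := exists_fin_linInd (p := p)
      (fun x : G × ι => β s (ρ x.1 (v x.2))) (wordBall S m ×ˢ (Set.univ : Set ι))
      (bs_set_finite S m) (fun i : Fin (min r0 m) => ((b (Fin.castLE hle i) : W') : E))
      (hb.comp _ (Fin.castLE_injective hle)) (by
        intro i
        have key : W' ≤ Submodule.span (ZMod p) ((fun x : G × ι => β s (ρ x.1 (v x.2))) ''
            (wordBall S m ×ˢ (Set.univ : Set ι))) := by
          rw [hW']
          unfold bs
          rw [Submodule.map_span, ← Set.image_comp]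
          exact le_rfl
        exact key (b (Fin.castLE hle i)).2)
    exact ⟨fun i => (j i).1, fun i => (j i).2, fun i => (hj1 i).1, hj2⟩

end

end Pool.H67.Esq.TF
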