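import Pool.Agent.H67.Esq.TF.Vec

set_option autoImplicit false

/-!
# `V` has dimension at least the nilpotency class
-/

namespace Pool.H67.Esq.TF

open Subgroup
open scoped commutatorElement

universe u

section

variable {P : Type u} [Group P] {p : ℕ} [hp : Fact p.Prime]

omit hp in
lemma map_pw {Q : Type u} [Group Q] (π : P →* Q) {q : ℕ} {a : P}
    (ha : a ∈ pw (⊤ : Subgroup P) q) : π a ∈ pw (⊤ : Subgroup Q) q := by
  unfold pw at ha
  induction ha using Subgroup.closure_induction with
  | mem x hx =>
    obtain ⟨h, -, rfl⟩ := hx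
    rw [map_pow]
    exact pow_mem_pw (mem_top _) _
  | one => rw [map_one]; exact one_mem _
  | mul a b _ _ ha hb => rw [map_mul]; exact mul_mem ha hb
  | inv a _ ha => rw [map_inv]; exact inv_mem ha

/-- functoriality of `V` -/
noncomputable def mapV (hP : Small P p) {Q : Type u} [Group Q] (hQ : Small Q p) (π : P →* Q) :
    VV hP →ₗ[ZMod p] VV hQ :=
  lift (secD hP 1 le_rfl) (fun a => mkV hQ (π a) (map_pw π a.2))
    (by
      intro a b
      rw [← mkV_mul]
      congr 1
      simp)
    (by
      intro a ha
      rw [mkV_zero]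
      exact map_pw π ha)

lemma mapV_mk (hP : Small P p) {Q : Type u} [Group Q] (hQ : Small Q p) (π : P →* Q) (a : P)
    (ha : a ∈ pw (⊤ : Subgroup P) (p ^ 1)) :
    mapV hP hQ π (mkV hP a ha) = mkV hQ (π a) (map_pw π ha) := rfl

lemma mapV_surj (hP : Small P p) {Q : Type u} [Group Q] (hQ : Small Q p) (π : P →* Q)
    (hπ : Function.Surjective π) : Function.Surjective (mapV hP hQ π) := by
  intro x
  obtain ⟨⟨a, ha⟩, rfl⟩ := mk_surj _ x
  obtain ⟨w, rfl⟩ := hQ.mem_pw ha
  obtain ⟨v, rfl⟩ := hπ w
  refine ⟨mkV hP (v ^ (p ^ 1)) (pow_mem_pw (mem_top _) _), ?_⟩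
  rw [mapV_mk]
  change mkV hQ _ _ = mkV hQ _ _
  congr 1
  rw [map_pow]

end

lemma quot_small {P : Type u} [Group P] {p : ℕ} (hP : Small P p) (N : Subgroup P) [N.Normal] :
    Small (P ⧸ N) p := quot_class N hP

/-- a central element which is not a `p`-th power gives a nonzero vector -/
lemma central_ne_zero {p : ℕ} [hp : Fact p.Prime] {P : Type u} [Group P] [Group.IsNilpotent P]
    (hT : TFree P) (hP : Small P p) {z : P} (hzp : ∀ y : P, y ^ p ≠ z) :
    mkV hP (z ^ (p ^ 1)) (pow_mem_pw (mem_top _) _) ≠ 0 := by
  intro h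
  rw [mkV_zero] at h
  obtain ⟨y, hy⟩ := hP.mem_pw h
  have h1 : z = y ^ p := by
    refine roots hT (n := p) hp.out.one_le ?_
    rw [← pow_mul]
    rw [pow_one] at hy
    rw [hy]
    congr 1
    ring
  exact hzp y h1.symm

/-- `dim V ≥ class` -/
theorem dim_V (p : ℕ) [hp : Fact p.Prime] (m : ℕ) (P : Type u) [Group P] [Group.IsNilpotent P]
    (hT : TFree P) (hP : Small P p) (S : Finset P) (hS : closure (S : Set P) = ⊤)
    (hm : Group.nilpotencyClass P = m) : ∃ w : Fin m → VV hP, LinearIndependent (ZMod p) w := by
  classical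
  induction m generalizing P with
  | zero => exact ⟨Fin.elim0, linearIndependent_empty_type⟩
  | succ m ih =>
    have hnt : Nontrivial P := by
      by_contra hcon
      rw [not_nontrivial_iff_subsingleton] at hcon
      have := (Group.nilpotencyClass_zero_iff_subsingleton (G := P)).2 hcon
      omega
    obtain ⟨z, hz, hzp⟩ := exists_central_not_pow (p := p) P hT S hS
    have h1 := Group.nilpotencyClass_quotient_center (G := P)
    obtain ⟨w, hw⟩ := ih (P ⧸ center P) (tfree_quot hT) (quot_small hP _)
      (S.image (QuotientGroup.mk' (center P))) (by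
        rw [Finset.coe_image, ← MonoidHom.map_closure, hS,
          Subgroup.map_top_of_surjective _ (QuotientGroup.mk'_surjective _)])
      (by rw [h1]; omega)
    choose v hv using fun i => mapV_surj hP (quot_small hP (center P)) (QuotientGroup.mk' (center P))
      (QuotientGroup.mk'_surjective _) (w i)
    have hz0 := central_ne_zero hT hP hzp
    have hzk : mapV hP (quot_small hP (center P)) (QuotientGroup.mk' (center P))
        (mkV hP (z ^ (p ^ 1)) (pow_mem_pw (mem_top _) _)) = 0 := by
      rw [mapV_mk, mkV_zero]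
      have : (QuotientGroup.mk' (center P)) (z ^ (p ^ 1)) = 1 := by
        rw [QuotientGroup.mk'_apply, QuotientGroup.eq_one_iff]
        exact pow_mem hz _
      rw [this]
      exact one_mem _
    refine ⟨Fin.cons (mkV hP (z ^ (p ^ 1)) (pow_mem_pw (mem_top _) _)) v, ?_⟩
    have hvi : LinearIndependent (ZMod p)
        (fun i => mapV hP (quot_small hP (center P)) (QuotientGroup.mk' (center P)) (v i)) := by
      have e : (fun i => mapV hP (quot_small hP (center P)) (QuotientGroup.mk' (center P)) (v i))
          = w := by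
        funext i; exact hv i
      rw [e]; exact hw
    rw [linearIndependent_finCons]
    refine ⟨LinearIndependent.of_comp _ hvi, ?_⟩
    intro hmem
    rw [Submodule.mem_span_range_iff_exists_fun] at hmem
    obtain ⟨c, hc⟩ := hmem
    have h2 := congrArg (mapV hP (quot_small hP (center P)) (QuotientGroup.mk' (center P))) hc
    rw [hzk, map_sum] at h2
    simp only [map_smul] at h2
    have h3 := Fintype.linearIndependent_iff.1 hvi c h2
    apply hz0
    rw [← hc]
    simp [h3]

end Pool.H67.Esq.TF
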