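import Pool.Agent.H67.Esq.Nil
import Pool.Agent.H67.Esq.TF.Dim
import Pool.Agent.H67.Esq.TF.Alg

set_option autoImplicit false

/-!
# Counting, and the growth of residually torsion-free nilpotent groups
-/

namespace Pool.H67.Esq.TF

open Subgroup
open scoped commutatorElement

universe u

section

variable {P : Type u} [Group P] {p : ℕ} [hp : Fact p.Prime]

lemma prodV (hP : Small P p) {r : ℕ} (u : Fin r → P) (hu : ∀ j, u j ∈ pw (⊤ : Subgroup P) (p ^ 1))
    (ε : Fin r → Bool) : ∃ h : lampProd u ε ∈ pw (⊤ : Subgroup P) (p ^ 1),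
      mkV hP (lampProd u ε) h = ∑ j, (if ε j then 1 else 0) • mkV hP (u j) (hu j) := by
  have key : ∀ l : List (Fin r), ∃ h : (l.map (fun j => if ε j then u j else 1)).prod ∈
      pw (⊤ : Subgroup P) (p ^ 1),
      mkV hP (l.map (fun j => if ε j then u j else 1)).prod h =
        (l.map (fun j => (if ε j then 1 else 0) • mkV hP (u j) (hu j))).sum := by
    intro l
    induction l with
    | nil =>
      refine ⟨one_mem _, ?_⟩
      exact (mkV_zero hP 1 (one_mem _)).2 (one_mem _)
    | cons a l ih =>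
      obtain ⟨h, h'⟩ := ih
      have ha : (if ε a then u a else 1) ∈ pw (⊤ : Subgroup P) (p ^ 1) := by
        by_cases hε : ε a
        · rw [if_pos hε]; exact hu a
        · rw [if_neg hε]; exact one_mem _
      have ha' : mkV hP (if ε a then u a else 1) ha = (if ε a then 1 else 0) • mkV hP (u a) (hu a) := by
        by_cases hε : ε a
        · simp only [hε, if_true, one_smul]
        · simp only [hε, Bool.false_eq_true, if_false, zero_smul]
          rw [mkV_zero]; exact one_mem _
      refine ⟨by rw [List.map_cons, List.prod_cons]; exact mul_mem ha h, ?_⟩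
      have h2 := mkV_mul hP _ _ ha h
      rw [ha', h'] at h2
      exact h2
  obtain ⟨h, h'⟩ := key (List.finRange r)
  have e : lampProd u ε = ((List.finRange r).map (fun j => if ε j then u j else 1)).prod := by
    rw [lampProd, List.ofFn_eq_map]
  refine ⟨by rw [e]; exact h, ?_⟩
  have e2 : mkV hP (lampProd u ε) (by rw [e]; exact h) =
      mkV hP ((List.finRange r).map (fun j => if ε j then u j else 1)).prod h := by
    congr 1
  rw [e2, h', ← List.ofFn_eq_map, List.sum_ofFn]

lemma levels (hP : Small P p) (S : Finset P) {s : P} (hs : s ∈ wordBall S 1) {r : ℕ} (u : Fin r → P)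
    (hu : ∀ j, u j ∈ pw (⊤ : Subgroup P) (p ^ 1)) {L : ℕ} (huL : ∀ j, u j ∈ wordBall S L) (i : ℕ) :
    ∀ e : Fin r → ℕ, (∀ j, e j < 2 ^ i) →
      ∃ g ∈ wordBall S (i * (2 * (r * L)) + 2 * (p * 2 ^ i)),
        ∃ hg : g ∈ pw (⊤ : Subgroup P) (p ^ 2),
          mkE hP g hg = ∑ j, e j • beta hP s (mkV hP (u j) (hu j)) := by
  induction i with
  | zero =>
    intro e he
    refine ⟨1, one_mem_wordBall S _, one_mem _, ?_⟩
    rw [(mkE_zero hP 1 _).2 (one_mem _)]
    symm
    apply Finset.sum_eq_zero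
    intro j _
    have := he j
    have : e j = 0 := by simpa using this
    rw [this, zero_smul]
  | succ i ih =>
    intro e he
    obtain ⟨g', hg', hg2, hg3⟩ := ih (fun j => if 2 ^ i ≤ e j then e j - 2 ^ i else e j) (by
      intro j
      have := he j
      rw [pow_succ] at this
      split_ifs with h <;> omega)
    obtain ⟨hU, hU'⟩ := prodV hP u hu (fun j => decide (2 ^ i ≤ e j))
    set U := lampProd u (fun j => decide (2 ^ i ≤ e j)) with hUdef
    have hUb : U ∈ wordBall S (r * L) := lampProd_mem_wordBall S u huL _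
    have hsb : s ^ (p * 2 ^ i) ∈ wordBall S (p * 2 ^ i) := by
      have := pow_mem_wordBall S hs (p * 2 ^ i)
      rwa [mul_one] at this
    refine ⟨g' * ⁅U, s ^ (p * 2 ^ i)⁆, ?_, mul_mem hg2 (comm_mem_two hP hU s _), ?_⟩
    · have h1 := mul_mem_wordBall S hg' (commutator_mem_wordBall S hUb hsb)
      refine wordBall_mono S (le_of_eq ?_) h1
      ring
    · rw [mkE_mul hP g' _ hg2 (comm_mem_two hP hU s _), mkE_comm hP s U hU, hU', hg3, map_sum,
        Finset.smul_sum, ← Finset.sum_add_distrib]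
      refine Finset.sum_congr rfl fun j _ => ?_
      rw [map_nsmul, smul_smul, ← add_smul]
      congr 1
      by_cases h : 2 ^ i ≤ e j
      · simp only [h, if_true, decide_true, mul_one]
        omega
      · simp only [h, if_false, decide_false, Bool.false_eq_true, mul_zero, add_zero]

lemma growth_ge (hP : Small P p) (S : Finset P) {s : P} (hs : s ∈ wordBall S 1) {r : ℕ}
    (u : Fin r → P)
    (hu : ∀ j, u j ∈ pw (⊤ : Subgroup P) (p ^ 1)) {L : ℕ} (huL : ∀ j, u j ∈ wordBall S L) (i : ℕ)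
    (hi : 2 ^ i ≤ p)
    (hind : LinearIndependent (ZMod p) (fun j => beta hP s (mkV hP (u j) (hu j)))) :
    2 ^ (i * r) ≤ growth S (i * (2 * (r * L)) + 2 * (p * 2 ^ i)) := by
  classical
  choose! g hg1 hg2 hg3 using levels hP S hs u hu huL i
  have hinj : Function.Injective (fun e : Fin r → Fin (2 ^ i) => g (fun j => (e j : ℕ))) := by
    intro e e' hee
    have h1 := hg3 (fun j => (e j : ℕ)) (fun j => (e j).2)
    have h2 := hg3 (fun j => (e' j : ℕ)) (fun j => (e' j).2)
    have h3 : (∑ j, (e j : ℕ) • beta hP s (mkV hP (u j) (hu j))) =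
        ∑ j, (e' j : ℕ) • beta hP s (mkV hP (u j) (hu j)) := by
      rw [← h1, ← h2]
      simp only [] at hee
      congr 1
    have h4 : ∑ j, (((e j : ℕ) : ZMod p) - ((e' j : ℕ) : ZMod p)) •
        beta hP s (mkV hP (u j) (hu j)) = 0 := by
      simp only [sub_smul, Finset.sum_sub_distrib, Nat.cast_smul_eq_nsmul]
      rw [h3, sub_self]
    have h5 := Fintype.linearIndependent_iff.1 hind _ h4
    funext j
    have h6 := h5 j
    rw [sub_eq_zero, ZMod.natCast_eq_natCast_iff] at h6
    apply Fin.ext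
    exact Nat.ModEq.eq_of_lt_of_lt h6 (lt_of_lt_of_le (e j).2 hi) (lt_of_lt_of_le (e' j).2 hi)
  have h := card_le_growth S (i * (2 * (r * L)) + 2 * (p * 2 ^ i))
    (Finset.univ.image (fun e : Fin r → Fin (2 ^ i) => g (fun j => (e j : ℕ)))) (by
      intro a ha
      obtain ⟨e, -, rfl⟩ := Finset.mem_image.1 ha
      exact hg1 _ (fun j => (e j).2))
  rw [Finset.card_image_of_injective _ hinj, Finset.card_univ, Fintype.card_fun, Fintype.card_fin,
    Fintype.card_fin, ← pow_mul] at h
  exact h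

/-- the growth of a torsion-free nilpotent group of class exactly `p - 1` -/
theorem growth_nilp [Group.IsNilpotent P] (hT : TFree P) (S : Finset P)
    (hS : closure (S : Set P) = ⊤) (hc : Group.nilpotencyClass P = p - 1) (k : ℕ)
    (hk : 2 ^ k ≤ p) : ∃ r : ℕ, p - 1 ≤ S.card + 2 * S.card * r ∧
      2 ^ (k * r) ≤ growth S (8 * ((k + 1) * p ^ 2)) := by
  classical
  have hp2 := hp.out.two_le
  have hP : Small P p := (Subgroup.lowerCentralSeries_eq_bot_iff_nilpotencyClass_le).2 (le_of_eq hc)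
  have hSne : S.Nonempty := by
    by_contra hcon
    rw [Finset.not_nonempty_iff_eq_empty] at hcon
    subst hcon
    have h1 : (⊤ : Subgroup P) = ⊥ := by rw [← hS]; simp
    have h2 : Subsingleton P := by
      refine ⟨fun a b => ?_⟩
      have ha : a ∈ (⊥ : Subgroup P) := by rw [← h1]; trivial
      have hb : b ∈ (⊥ : Subgroup P) := by rw [← h1]; trivial
      rw [mem_bot] at ha hb
      rw [ha, hb]
    have := (Group.nilpotencyClass_zero_iff_subsingleton (G := P)).2 h2
    omega
  obtain ⟨w, hw⟩ := dim_V p (p - 1) P hT hP S hS hc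
  obtain ⟨s, hs, r, hr, hmr, g, t, hg, hind⟩ := alg (p := p) S hSne hS (rho hP)
    (fun t : S => mkV hP ((t : P) ^ (p ^ 1)) (pow_mem_pw (mem_top _) _)) (span_top hP S hS)
    (p - 1) w hw (beta hP) (fun s x hx => beta_ker hP hT s x hx)
  rw [Fintype.card_coe] at hmr
  refine ⟨r, hmr, ?_⟩
  have h1 := growth_ge hP S hs (fun j => g j * ((t j : P) ^ (p ^ 1)) * (g j)⁻¹)
    (fun j => conj_mem_pw _ (pow_mem_pw (mem_top _) _)) (L := 3 * p) (by
      intro j
      have h1 : (t j : P) ^ (p ^ 1) ∈ wordBall S p := by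
        have := pow_mem_wordBall S (gen_mem_wordBall S (t j).2) (p ^ 1)
        rw [mul_one] at this
        exact wordBall_mono S (by rw [pow_one]) this
      have h2 := mul_mem_wordBall S (mul_mem_wordBall S (hg j) h1) (inv_mem_wordBall S (hg j))
      exact wordBall_mono S (by omega) h2) k hk hind
  refine h1.trans (growth_mono S ?_)
  have h2 : k * (2 * (r * (3 * p))) ≤ k * (2 * (p * (3 * p))) := by
    gcongr
    omega
  have h3 : 2 * (p * 2 ^ k) ≤ 2 * (p * p) := by gcongr
  calc k * (2 * (r * (3 * p))) + 2 * (p * 2 ^ k) ≤ k * (2 * (p * (3 * p))) + 2 * (p * p) := by omega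
    _ ≤ 8 * ((k + 1) * p ^ 2) := by
      have : k * (2 * (p * (3 * p))) + 2 * (p * p) = (6 * k + 2) * p ^ 2 := by ring
      rw [this, ← mul_assoc]
      gcongr
      omega

end

/-- growth of quotients -/
lemma growth_quot {G P : Type u} [Group G] [Group P] [DecidableEq P] (π : G →* P)
    (S : Finset G) (n : ℕ) : growth (S.image π) n ≤ growth S n := by
  have h : wordBall (S.image π) n ⊆ π '' (wordBall S n) := by
    rintro x ⟨l, h1, h2, h3⟩
    have key : ∀ l : List P, (∀ a ∈ l, a ∈ S.image π ∨ a⁻¹ ∈ S.image π) →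
        ∃ l' : List G, l'.length = l.length ∧ (∀ a ∈ l', a ∈ S ∨ a⁻¹ ∈ S) ∧ l'.map π = l := by
      intro l
      induction l with
      | nil => intro _; exact ⟨[], rfl, by simp, rfl⟩
      | cons a l ih =>
        intro hl
        obtain ⟨l', h1, h2, h3⟩ := ih (fun b hb => hl b (by simp [hb]))
        obtain ⟨b, hb, hba⟩ : ∃ b : G, (b ∈ S ∨ b⁻¹ ∈ S) ∧ π b = a := by
          rcases hl a (by simp) with h | h
          · obtain ⟨b, hb, rfl⟩ := Finset.mem_image.1 h
            exact ⟨b, Or.inl hb, rfl⟩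
          · obtain ⟨b, hb, hb2⟩ := Finset.mem_image.1 h
            exact ⟨b⁻¹, Or.inr (by simpa using hb), by rw [map_inv, hb2, inv_inv]⟩
        refine ⟨b :: l', by simp [h1], ?_, by simp [h3, hba]⟩
        intro c hc
        rcases List.mem_cons.1 hc with rfl | hc
        · exact hb
        · exact h2 c hc
    obtain ⟨l', h4, h5, h6⟩ := key l h2
    refine ⟨l'.prod, ⟨l', by omega, h5, rfl⟩, ?_⟩
    rw [map_list_prod, h6, h3]
  calc (wordBall (S.image π) n).ncard ≤ (π '' (wordBall S n)).ncard :=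
        Set.ncard_le_ncard h ((wordBall_finite S n).image _)
    _ ≤ (wordBall S n).ncard := Set.ncard_image_le (wordBall_finite S n)

/-- **Theorem.** If `G` has torsion-free nilpotent quotients of unbounded class, then its growth
is at least `exp (c √(n log n))`. -/
theorem growth_tf {G : Type u} [Group G] (S : Finset G) (hS : closure (S : Set G) = ⊤)
    (h : ∀ c : ℕ, ∃ (N : Subgroup G) (_ : N.Normal), Group.IsNilpotent (G ⧸ N) ∧ TFree (G ⧸ N) ∧
      c ≤ Group.nilpotencyClass (G ⧸ N)) :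
    ∃ c : ℝ, 0 < c ∧ ∀ n : ℕ, 2 ≤ n →
      Real.exp (c * Real.sqrt ((n : ℝ) * Real.log n)) ≤ growth S n := by
  classical
  -- `G` is not trivial
  have hnt : ∃ g : G, g ≠ 1 := by
    obtain ⟨N, hN, h1, h2, h3⟩ := h 1
    by_contra hcon
    push Not at hcon
    have h4 : Subsingleton (G ⧸ N) := by
      refine ⟨fun a b => ?_⟩
      obtain ⟨a, rfl⟩ := QuotientGroup.mk_surjective a
      obtain ⟨b, rfl⟩ := QuotientGroup.mk_surjective b
      rw [hcon a, hcon b]
    have := (Group.nilpotencyClass_zero_iff_subsingleton (G := G ⧸ N)).2 h4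
    omega
  obtain ⟨g0, hg0⟩ := hnt
  have hSpos : 1 ≤ S.card := by
    rw [Nat.one_le_iff_ne_zero, Finset.card_ne_zero]
    by_contra hcon
    rw [Finset.not_nonempty_iff_eq_empty] at hcon
    subst hcon
    have h1 : g0 ∈ (⊤ : Subgroup G) := trivial
    rw [← hS] at h1
    simp at h1
    exact hg0 h1
  refine analytic_interp (growth S) (growth_mono S) (fun n hn => two_le_growth S hS hg0 hn)
    2 le_rfl 32 (by norm_num) (Real.log 2 / (8 * S.card))
    (by
      have h1 := Real.log_pos (show (1 : ℝ) < 2 by norm_num)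
      have h2 : (0 : ℝ) < S.card := by exact_mod_cast hSpos
      positivity) (2 * S.card) ?_
  intro k hk
  obtain ⟨p, hp, hp1, hp2⟩ := Nat.exists_prime_lt_and_le_two_mul (2 ^ k) (by positivity)
  have hpf : Fact p.Prime := ⟨hp⟩
  obtain ⟨N, hN, h1, h2, h3⟩ := h (p - 1)
  obtain ⟨P, i1, i2, π, hπ, hT, hcl⟩ := exact_class (Group.nilpotencyClass (G ⧸ N) - (p - 1)) (p - 1)
    (G ⧸ N) h2 (by omega)
  set π' : G →* P := π.comp (QuotientGroup.mk' N) with hπ'
  have hπs : Function.Surjective π' := hπ.comp (QuotientGroup.mk'_surjective N)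
  obtain ⟨r, hr1, hr2⟩ := growth_nilp (p := p) hT (S.image π') (by
    rw [Finset.coe_image, ← MonoidHom.map_closure, hS,
      Subgroup.map_top_of_surjective _ hπs]) hcl k hp1.le
  have hcard : (S.image π').card ≤ S.card := Finset.card_image_le
  have h4 : 2 ^ (k * r) ≤ growth S (32 * ((k + 1) * 2 ^ (2 * k))) := by
    refine hr2.trans ((growth_quot π' S _).trans (growth_mono S ?_))
    have h5 : p ^ 2 ≤ (2 * 2 ^ k) ^ 2 := Nat.pow_le_pow_left hp2 2
    calc 8 * ((k + 1) * p ^ 2) ≤ 8 * ((k + 1) * (2 * 2 ^ k) ^ 2) := by gcongr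
      _ = 32 * ((k + 1) * 2 ^ (2 * k)) := by rw [mul_pow, ← pow_mul, mul_comm k 2]; ring
  have h5 : 2 ^ k ≤ 4 * S.card * r := by
    have h6 : 2 ^ k ≤ S.card + 2 * S.card * r := by
      have : (S.image π').card + 2 * (S.image π').card * r ≤ S.card + 2 * S.card * r := by gcongr
      omega
    have h7 : k < 2 ^ k := Nat.lt_two_pow_self
    have h8 : 4 * S.card * r = 2 * (2 * S.card * r) := by ring
    omega
  have h6 : ((2 ^ (k * r) : ℕ) : ℝ) ≤ growth S (32 * ((k + 1) * 2 ^ (2 * k))) := by exact_mod_cast h4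
  refine le_trans ?_ h6
  have e2 : (((2 ^ (k * r) : ℕ)) : ℝ) = Real.exp (((k * r : ℕ) : ℝ) * Real.log 2) := by
    rw [Real.exp_nat_mul, Real.exp_log (by norm_num)]
    push_cast; rfl
  rw [e2]
  apply Real.exp_le_exp.2
  have hlog : 0 < Real.log 2 := Real.log_pos (by norm_num)
  have hSr : (0 : ℝ) < S.card := by exact_mod_cast hSpos
  have h7 : (2 : ℝ) ^ k ≤ 4 * S.card * r := by exact_mod_cast h5
  have hk1 : (1 : ℝ) ≤ k := by
    have : 1 ≤ k := by omega
    exact_mod_cast this
  push_cast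
  rw [div_mul_eq_mul_div, div_mul_eq_mul_div, div_le_iff₀ (by positivity)]
  have h8 : ((k : ℝ) + 1) * 2 ^ k ≤ (2 * k) * (4 * S.card * r) := by
    apply mul_le_mul _ h7 (by positivity) (by positivity)
    linarith
  calc Real.log 2 * ((k : ℝ) + 1) * 2 ^ k = Real.log 2 * (((k : ℝ) + 1) * 2 ^ k) := by ring
    _ ≤ Real.log 2 * ((2 * k) * (4 * S.card * r)) := mul_le_mul_of_nonneg_left h8 hlog.le
    _ = (k : ℝ) * r * Real.log 2 * (8 * S.card) := by ring

end Pool.H67.Esq.TF
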