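import Pool.Agent.H67.Esq.TF.Tfree

set_option autoImplicit false

/-!
# Subgroups of finitely generated nilpotent groups are finitely generated
-/

namespace Pool.H67.Esq.TF

open Subgroup
open scoped commutatorElement

universe u

section

variable {G : Type u} [Group G]

lemma fg_ext (N : Subgroup G) [N.Normal] (h1 : ∀ H : Subgroup G, H ≤ N → H.FG)
    (h2 : ∀ H : Subgroup (G ⧸ N), H.FG) (H : Subgroup G) : H.FG := by
  classical
  obtain ⟨Y, hY⟩ := h1 (H ⊓ N) inf_le_right
  obtain ⟨T, hT⟩ := h2 (H.map (QuotientGroup.mk' N))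
  have hTm : ∀ t ∈ T, ∃ h ∈ H, QuotientGroup.mk' N h = t := by
    intro t ht
    have : t ∈ closure (T : Set (G ⧸ N)) := subset_closure ht
    rw [hT] at this
    exact this
  choose! f hf1 hf2 using hTm
  refine ⟨Y ∪ T.image f, ?_⟩
  apply le_antisymm
  · rw [closure_le]
    intro z hz
    rw [Finset.coe_union, Set.mem_union] at hz
    rcases hz with hz | hz
    · have : z ∈ closure (Y : Set G) := subset_closure hz
      rw [hY] at this
      exact this.1
    · rw [Finset.coe_image] at hz
      obtain ⟨t, ht, rfl⟩ := hz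
      exact hf1 t ht
  · intro h hh
    have h3 : QuotientGroup.mk' N h ∈ closure (T : Set (G ⧸ N)) := by
      rw [hT]; exact ⟨h, hh, rfl⟩
    have h4 : closure (T : Set (G ⧸ N)) ≤
        (closure ((T.image f : Finset G) : Set G)).map (QuotientGroup.mk' N) := by
      rw [closure_le]
      intro t ht
      exact ⟨f t, subset_closure (by rw [Finset.coe_image]; exact ⟨t, ht, rfl⟩), hf2 t ht⟩
    obtain ⟨t, ht, hte⟩ := h4 h3
    have ht' : t ∈ closure (((Y ∪ T.image f : Finset G)) : Set G) :=
      closure_mono (by rw [Finset.coe_union]; exact Set.subset_union_right) ht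
    have htH : t ∈ H := by
      refine (closure_le H).2 ?_ ht
      intro z hz
      rw [Finset.coe_image] at hz
      obtain ⟨t, ht, rfl⟩ := hz
      exact hf1 t ht
    have h5 : t⁻¹ * h ∈ H ⊓ N := by
      refine Subgroup.mem_inf.2 ⟨mul_mem (inv_mem htH) hh, ?_⟩
      rw [← QuotientGroup.eq]
      exact hte
    rw [← hY] at h5
    have h6 : t⁻¹ * h ∈ closure (((Y ∪ T.image f : Finset G)) : Set G) :=
      closure_mono (by rw [Finset.coe_union]; exact Set.subset_union_left) h5
    have := mul_mem ht' h6
    simpa using this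

lemma fg_central (N : Subgroup G) (hN : N ≤ Subgroup.center G) (hfg : N.FG) (H : Subgroup G)
    (hH : H ≤ N) : H.FG := by
  classical
  let _ : CommGroup N := { (inferInstance : Group N) with
    mul_comm := fun a b => Subtype.ext ((Subgroup.mem_center_iff.1 (hN b.2) a.1)) }
  have h1 : Group.FG N := (Group.fg_iff_subgroup_fg N).2 hfg
  have h2 : AddGroup.FG (Additive N) := GroupFG.iff_add_fg.1 h1
  have h3 : Module.Finite ℤ (Additive N) := Module.Finite.iff_addGroup_fg.2 h2
  have h4 : IsNoetherian ℤ (Additive N) := inferInstance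
  have h5 := h4.noetherian (AddSubgroup.toIntSubmodule (Subgroup.toAddSubgroup (H.subgroupOf N)))
  rw [Submodule.fg_iff_addSubgroup_fg] at h5
  have h6 : (H.subgroupOf N).FG := (Subgroup.fg_iff_add_fg _).2 h5
  have h7 : Group.FG (H.subgroupOf N) := (Group.fg_iff_subgroup_fg _).2 h6
  have h8 : Group.FG H := Group.fg_of_surjective
    (f := (Subgroup.subgroupOfEquivOfLe hH).toMonoidHom) (Subgroup.subgroupOfEquivOfLe hH).surjective
  exact (Group.fg_iff_subgroup_fg H).1 h8

/-- the lower central factors are finitely generated -/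
lemma lcs_fg (S : Finset G) (hS : closure (S : Set G) = ⊤) (i : ℕ) :
    ∃ X : Finset G, (X : Set G) ⊆ (⊤ : Subgroup G).lowerCentralSeries i ∧
      (⊤ : Subgroup G).lowerCentralSeries i ≤
        closure (X : Set G) ⊔ (⊤ : Subgroup G).lowerCentralSeries (i + 1) := by
  classical
  induction i with
  | zero => exact ⟨S, by simp, by rw [hS]; simp⟩
  | succ i ih =>
    obtain ⟨X, hX1, hX2⟩ := ih
    set Y : Finset G := (X ×ˢ S).image (fun z => ⁅z.1, z.2⁆) with hY
    have hYm : ∀ x ∈ X, ∀ s ∈ S, ⁅x, s⁆ ∈ Y := fun x hx s hs =>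
      Finset.mem_image.2 ⟨(x, s), Finset.mem_product.2 ⟨hx, hs⟩, rfl⟩
    have hYle : (Y : Set G) ⊆ (⊤ : Subgroup G).lowerCentralSeries (i + 1) := by
      intro z hz
      rw [hY, Finset.coe_image] at hz
      obtain ⟨⟨x, s⟩, hxs, rfl⟩ := hz
      have := Finset.mem_product.1 (Finset.mem_coe.1 hxs)
      exact commutator_mem_commutator (hX1 this.1) (mem_top s)
    set M := closure (Y : Set G) ⊔ (⊤ : Subgroup G).lowerCentralSeries (i + 1 + 1) with hM
    have hMle : M ≤ (⊤ : Subgroup G).lowerCentralSeries (i + 1) :=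
      sup_le ((closure_le _).2 hYle) (Subgroup.lowerCentralSeries_antitone _ (by omega))
    have hMconj : ∀ g : G, ∀ m ∈ M, g * m * g⁻¹ ∈ M := by
      intro g m hm
      have h1 : ⁅m, g⁆ ∈ (⊤ : Subgroup G).lowerCentralSeries (i + 1 + 1) :=
        commutator_mem_commutator (hMle hm) (mem_top g)
      have h2 : ⁅m, g⁆ ∈ M := (le_sup_right : _ ≤ M) h1
      have e : g * m * g⁻¹ = (⁅m, g⁆)⁻¹ * m := by simp only [commutatorElement_def]; group
      rw [e]
      exact mul_mem (inv_mem h2) hm
    refine ⟨Y, hYle, ?_⟩
    rw [Subgroup.lowerCentralSeries_succ]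
    refine commutator_le.2 fun a ha g _ => ?_
    have ha' := hX2 ha
    -- the subgroup of good elements
    let W : Subgroup G :=
      { carrier := {a | ∀ g : G, ⁅a, g⁆ ∈ M}
        one_mem' := by intro g; simp
        mul_mem' := by
          intro a b ha hb g
          have e : ⁅a * b, g⁆ = a * ⁅b, g⁆ * a⁻¹ * ⁅a, g⁆ := by
            simp only [commutatorElement_def]; group
          rw [e]
          exact mul_mem (hMconj a _ (hb g)) (ha g)
        inv_mem' := by
          intro a ha g
          have e : ⁅a⁻¹, g⁆ = a⁻¹ * (⁅a, g⁆)⁻¹ * a⁻¹⁻¹ := by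
            simp only [commutatorElement_def]; group
          rw [e]
          exact hMconj _ _ (inv_mem (ha g)) }
    have hW : closure (X : Set G) ⊔ (⊤ : Subgroup G).lowerCentralSeries (i + 1) ≤ W := by
      refine sup_le ((closure_le _).2 ?_) ?_
      · intro x hx g
        have hg : g ∈ closure (S : Set G) := by rw [hS]; trivial
        induction hg using Subgroup.closure_induction with
        | mem s hs => exact (le_sup_left : _ ≤ M) (subset_closure (hYm x hx s hs))
        | one => simp
        | mul a b _ _ ha hb =>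
          have e : ⁅x, a * b⁆ = ⁅x, a⁆ * (a * ⁅x, b⁆ * a⁻¹) := by
            simp only [commutatorElement_def]; group
          rw [e]
          exact mul_mem ha (hMconj _ _ hb)
        | inv a _ ha =>
          have e : ⁅x, a⁻¹⁆ = a⁻¹ * (⁅x, a⁆)⁻¹ * a⁻¹⁻¹ := by
            simp only [commutatorElement_def]; group
          rw [e]
          exact hMconj _ _ (inv_mem ha)
      · intro x hx g
        exact (le_sup_right : _ ≤ M) (commutator_mem_commutator hx (mem_top g))
    exact hW ha' g

end

/-- finitely generated nilpotent groups satisfy the maximal condition -/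
theorem noeth (c : ℕ) (G : Type u) [Group G] (hG : (⊤ : Subgroup G).lowerCentralSeries c = ⊥)
    (S : Finset G) (hS : closure (S : Set G) = ⊤) (H : Subgroup G) : H.FG := by
  classical
  induction c generalizing G with
  | zero =>
    rw [Subgroup.lowerCentralSeries_zero] at hG
    have : H = ⊥ := le_bot_iff.1 (le_top.trans (le_of_eq hG))
    rw [this]
    exact Subgroup.FG.bot
  | succ c ih =>
    set N := (⊤ : Subgroup G).lowerCentralSeries c with hN
    obtain ⟨X, hX1, hX2⟩ := lcs_fg S hS c
    rw [hG, sup_bot_eq] at hX2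
    have hNfg : N.FG := ⟨X, le_antisymm ((closure_le _).2 hX1) hX2⟩
    have hNc : N ≤ center G := by
      intro n hn
      rw [mem_center_iff]
      intro g
      have : ⁅n, g⁆ ∈ (⊤ : Subgroup G).lowerCentralSeries (c + 1) :=
        commutator_mem_commutator hn (mem_top g)
      rw [hG, mem_bot, commutatorElement_eq_one_iff_mul_comm] at this
      exact this.symm
    refine fg_ext N (fun H hH => fg_central N hNc hNfg H hH) ?_ H
    intro H'
    refine ih (G ⧸ N) ?_ (S.image (QuotientGroup.mk' N)) ?_ H'
    · have h := map_lowerCentralSeries (⊤ : Subgroup G) (QuotientGroup.mk' N) c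
      rw [Subgroup.map_top_of_surjective _ (QuotientGroup.mk'_surjective N)] at h
      rw [← h, ← hN, Subgroup.map_eq_bot_iff, QuotientGroup.ker_mk']
    · rw [Finset.coe_image, ← MonoidHom.map_closure, hS,
        Subgroup.map_top_of_surjective _ (QuotientGroup.mk'_surjective N)]

/-- in a nontrivial finitely generated torsion-free nilpotent group some central element is not
a `p`-th power -/
theorem exists_central_not_pow {p : ℕ} [hp : Fact p.Prime] (G : Type u) [Group G]
    [Group.IsNilpotent G] [Nontrivial G] (hT : TFree G) (S : Finset G)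
    (hS : closure (S : Set G) = ⊤) : ∃ z ∈ center G, ∀ y : G, y ^ p ≠ z := by
  classical
  by_contra hcon
  push Not at hcon
  obtain ⟨c, hc⟩ := class_exists (G := G)
  have hfg := noeth c G hc S hS (center G)
  have hnt : center G ≠ ⊥ := Group.IsNilpotent.center_ne_bot G
  -- the centre is `p`-divisible
  have hdiv : ∀ z ∈ center G, ∃ y ∈ center G, y ^ p = z := by
    intro z hz
    obtain ⟨y, hy⟩ := hcon z hz
    exact ⟨y, center_of_pow hT hp.out.one_le (by rw [hy]; exact hz), hy⟩
  let _ : CommGroup (center G) := { (inferInstance : Group (center G)) with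
    mul_comm := fun a b => Subtype.ext ((Subgroup.mem_center_iff.1 b.2 a.1)) }
  have h1 : Group.FG (center G) := (Group.fg_iff_subgroup_fg _).2 hfg
  have h2 : AddGroup.FG (Additive (center G)) := GroupFG.iff_add_fg.1 h1
  have h3 : Module.Finite ℤ (Additive (center G)) := Module.Finite.iff_addGroup_fg.2 h2
  -- Nakayama-like: M = pM implies M is killed by something prime to p
  have h4 : (⊤ : Submodule ℤ (Additive (center G))) ≤ (Ideal.span {(p : ℤ)}) • ⊤ := by
    intro x _
    obtain ⟨y, hy, hyx⟩ := hdiv (Additive.toMul x).1 (Additive.toMul x).2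
    have : x = (p : ℤ) • (Additive.ofMul (⟨y, hy⟩ : center G)) := by
      apply Additive.toMul.injective
      apply Subtype.ext
      simp only [natCast_zsmul, toMul_nsmul, toMul_ofMul, SubmonoidClass.coe_pow]
      exact hyx.symm
    rw [this]
    exact Submodule.smul_mem_smul (Ideal.mem_span_singleton_self _) Submodule.mem_top
  obtain ⟨r, hr1, hr2⟩ := Submodule.exists_sub_one_mem_and_smul_eq_zero_of_fg_of_le_smul
    (Ideal.span {(p : ℤ)}) (⊤ : Submodule ℤ (Additive (center G))) (Module.Finite.fg_top) h4
  apply hnt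
  rw [eq_bot_iff]
  intro z hz
  rw [mem_bot]
  have h5 := hr2 (Additive.ofMul (⟨z, hz⟩ : center G)) Submodule.mem_top
  have hr0 : r ≠ 0 := by
    rintro rfl
    rw [Ideal.mem_span_singleton] at hr1
    have h6 : (p : ℤ) ∣ 1 := by
      have := (dvd_neg.2 hr1); simpa using this
    have h7 := Int.le_of_dvd one_pos h6
    have := hp.out.one_lt
    omega
  have h6 : z ^ r = 1 := by
    have := congrArg (fun x => ((Additive.toMul x : center G) : G)) h5
    simpa using this
  have h7 : z ^ r.natAbs = 1 := by
    rcases Int.natAbs_eq r with h | h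
    · rw [h, zpow_natCast] at h6; exact h6
    · rw [h, zpow_neg, zpow_natCast, inv_eq_one] at h6; exact h6
  exact hT z r.natAbs (by omega) h7

end Pool.H67.Esq.TF
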