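import Pool.Agent.H67.Esq.TF.Poly

set_option autoImplicit false

/-!
# Regularity: groups of class less than `p`
-/

namespace Pool.H67.Esq.TF

open Subgroup
open scoped commutatorElement

universe u

section Reg

variable {G : Type u} [Group G]

/-- the subgroup generated by `x` and the commutators -/
def kx (K : Subgroup G) (x : G) : Subgroup G := Subgroup.zpowers x ⊔ ⁅K, K⁆

lemma comm_le_self (K : Subgroup G) : ⁅K, K⁆ ≤ K := by
  refine commutator_le.2 fun a ha b hb => ?_
  rw [commutatorElement_def]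
  exact mul_mem (mul_mem (mul_mem ha hb) (inv_mem ha)) (inv_mem hb)

lemma comm_le_kx (K : Subgroup G) (x : G) : ⁅K, K⁆ ≤ kx K x := le_sup_right

lemma mem_kx (K : Subgroup G) (x : G) : x ∈ kx K x :=
  (le_sup_left : Subgroup.zpowers x ≤ kx K x) (Subgroup.mem_zpowers x)

lemma kx_le (K : Subgroup G) {x : G} (hx : x ∈ K) : kx K x ≤ K :=
  sup_le ((Subgroup.zpowers_le).2 hx) (comm_le_self K)

lemma kx_top_comm (x : G) : ⁅kx (⊤ : Subgroup G) x, kx (⊤ : Subgroup G) x⁆ ≤
    (⊤ : Subgroup G).lowerCentralSeries 2 := by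
  refine commutator_le.2 fun a ha b hb => ?_
  unfold kx at ha hb
  obtain ⟨a1, ha1, a2, ha2, rfl⟩ := Subgroup.mem_sup_of_normal_right.1 ha
  obtain ⟨b1, hb1, b2, hb2, rfl⟩ := Subgroup.mem_sup_of_normal_right.1 hb
  have hcen : ∀ c ∈ ⁅(⊤ : Subgroup G), (⊤ : Subgroup G)⁆, ∀ g : G,
      ((c : G) : G ⧸ (⊤ : Subgroup G).lowerCentralSeries 2) * (g : G ⧸ (⊤ : Subgroup G).lowerCentralSeries 2)
        = (g : G ⧸ (⊤ : Subgroup G).lowerCentralSeries 2) * (c : G ⧸ (⊤ : Subgroup G).lowerCentralSeries 2) := by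
    intro c hc g
    have h1 : ⁅c, g⁆ ∈ (⊤ : Subgroup G).lowerCentralSeries 2 :=
      commutator_mem_commutator hc (Subgroup.mem_top g)
    rw [← commutatorElement_eq_one_iff_mul_comm]
    have h2 := (QuotientGroup.eq_one_iff _).2 h1
    rw [commutatorElement_def] at h2 ⊢
    exact h2
  rw [← QuotientGroup.eq_one_iff]
  obtain ⟨i, rfl⟩ := Subgroup.mem_zpowers_iff.1 ha1
  obtain ⟨j, rfl⟩ := Subgroup.mem_zpowers_iff.1 hb1
  set Q := G ⧸ (⊤ : Subgroup G).lowerCentralSeries 2
  have e1 := hcen a2 ha2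
  have e2 := hcen b2 hb2
  have goal : ∀ (X A B : Q), (∀ g : Q, A * g = g * A) → (∀ g : Q, B * g = g * B) →
      ⁅X ^ i * A, X ^ j * B⁆ = 1 := by
    intro X A B hA hB
    rw [commutatorElement_eq_one_iff_mul_comm]
    calc X ^ i * A * (X ^ j * B) = X ^ i * (A * X ^ j) * B := by simp only [mul_assoc]
      _ = X ^ i * (X ^ j * A) * B := by rw [hA]
      _ = (X ^ i * X ^ j) * (A * B) := by simp only [mul_assoc]
      _ = (X ^ j * X ^ i) * (B * A) := by rw [hA B, ← zpow_add, ← zpow_add, add_comm]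
      _ = X ^ j * (X ^ i * B) * A := by simp only [mul_assoc]
      _ = X ^ j * (B * X ^ i) * A := by rw [← hB]
      _ = X ^ j * B * (X ^ i * A) := by simp only [mul_assoc]
  have := goal (x : Q) (a2 : Q) (b2 : Q)
    (fun g => by induction g using QuotientGroup.induction_on with | _ g => exact e1 g)
    (fun g => by induction g using QuotientGroup.induction_on with | _ g => exact e2 g)
  rw [commutatorElement_def] at this ⊢
  exact this

lemma kx_map (K : Subgroup G) (x : K) :
    (kx (⊤ : Subgroup K) x).map K.subtype = kx K (x : G) := by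
  unfold kx
  rw [Subgroup.map_sup, map_commutator, ← MonoidHom.range_eq_map, Subgroup.range_subtype,
    MonoidHom.map_zpowers]
  rfl

lemma kx_comm (K : Subgroup G) {x : G} (hx : x ∈ K) : ⁅kx K x, kx K x⁆ ≤
    K.lowerCentralSeries 2 := by
  rw [show x = ((⟨x, hx⟩ : K) : G) from rfl, ← kx_map, ← map_commutator,
    ← top_subtype_lowerCentralSeries K 2]
  exact Subgroup.map_mono (kx_top_comm _)

/-- the class drops -/
lemma kx_class (K : Subgroup G) {x : G} (hx : x ∈ K) (c : ℕ) (hc : 1 ≤ c)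
    (hK : K.lowerCentralSeries (c + 1) = ⊥) : (kx K x).lowerCentralSeries c = ⊥ := by
  have h : ∀ i, (kx K x).lowerCentralSeries (i + 1) ≤ K.lowerCentralSeries (i + 2) := by
    intro i
    induction i with
    | zero =>
      rw [Subgroup.lowerCentralSeries_succ, Subgroup.lowerCentralSeries_zero]
      exact kx_comm K hx
    | succ i ih =>
      rw [Subgroup.lowerCentralSeries_succ, Subgroup.lowerCentralSeries_succ]
      exact commutator_mono ih (kx_le K hx)
  obtain ⟨i, rfl⟩ : ∃ i, c = i + 1 := ⟨c - 1, by omega⟩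
  exact le_bot_iff.1 ((h i).trans (le_of_eq hK))

lemma class_mono {K L : Subgroup G} (h : K ≤ L) {c : ℕ} (hL : L.lowerCentralSeries c = ⊥) :
    K.lowerCentralSeries c = ⊥ :=
  le_bot_iff.1 ((lowerCentralSeries_mono c h).trans (le_of_eq hL))

lemma comm_class (K : Subgroup G) (c : ℕ) (hc : 1 ≤ c)
    (hK : K.lowerCentralSeries (c + 1) = ⊥) : (⁅K, K⁆).lowerCentralSeries c = ⊥ :=
  class_mono (comm_le_kx K 1) (kx_class K (one_mem K) c hc hK)

/-- commutators of generators generate, up to conjugacy -/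
lemma comm_gen (X : Set G) : ⁅closure X, closure X⁆ ≤
    closure {z | ∃ x ∈ X, ∃ y ∈ X, ∃ g ∈ closure X, z = g * ⁅x, y⁆ * g⁻¹} := by
  set N := closure {z | ∃ x ∈ X, ∃ y ∈ X, ∃ g ∈ closure X, z = g * ⁅x, y⁆ * g⁻¹} with hN
  have hconj : ∀ g ∈ closure X, ∀ n ∈ N, g * n * g⁻¹ ∈ N := by
    intro g hg n hn
    induction hn using Subgroup.closure_induction with
    | mem z hz =>
      obtain ⟨x, hx, y, hy, h, hh, rfl⟩ := hz
      refine Subgroup.subset_closure ⟨x, hx, y, hy, g * h, mul_mem hg hh, ?_⟩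
      group
    | one => simp
    | mul a b _ _ ha hb =>
      have := mul_mem ha hb
      have e : g * a * g⁻¹ * (g * b * g⁻¹) = g * (a * b) * g⁻¹ := by group
      rwa [e] at this
    | inv a _ ha =>
      have := inv_mem ha
      have e : (g * a * g⁻¹)⁻¹ = g * a⁻¹ * g⁻¹ := by group
      rwa [e] at this
  have h1 : ∀ x ∈ X, ∀ b ∈ closure X, ⁅x, b⁆ ∈ N := by
    intro x hx b hb
    induction hb using Subgroup.closure_induction with
    | mem y hy => exact Subgroup.subset_closure ⟨x, hx, y, hy, 1, one_mem _, by simp⟩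
    | one => simp
    | mul a b ha' _ ha hb =>
      have := mul_mem ha (hconj a ha' _ hb)
      have e : ⁅x, a⁆ * (a * ⁅x, b⁆ * a⁻¹) = ⁅x, a * b⁆ := by
        simp only [commutatorElement_def]; group
      rwa [e] at this
    | inv a ha' ha =>
      have := hconj _ (inv_mem ha') _ (inv_mem ha)
      have e : a⁻¹ * (⁅x, a⁆)⁻¹ * a⁻¹⁻¹ = ⁅x, a⁻¹⁆ := by
        simp only [commutatorElement_def]; group
      rwa [e] at this
  refine commutator_le.2 fun a ha b hb => ?_
  induction ha using Subgroup.closure_induction with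
  | mem y hy => exact h1 y hy b hb
  | one => simp
  | mul a c ha' _ ha hc =>
    have := mul_mem (hconj a ha' _ hc) ha
    have e : a * ⁅c, b⁆ * a⁻¹ * ⁅a, b⁆ = ⁅a * c, b⁆ := by
      simp only [commutatorElement_def]; group
    rwa [e] at this
  | inv a ha' ha =>
    have := hconj _ (inv_mem ha') _ (inv_mem ha)
    have e : a⁻¹ * (⁅a, b⁆)⁻¹ * a⁻¹⁻¹ = ⁅a⁻¹, b⁆ := by
      simp only [commutatorElement_def]; group
    rwa [e] at this

lemma conj_pow_eq_one {g a : G} {q : ℕ} (h : a ^ q = 1) : (g * a * g⁻¹) ^ q = 1 := by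
  rw [conj_pow, h]; simp

variable (G) in
/-- the two main facts for subgroups of class at most `c` -/
structure RG (p c : ℕ) : Prop where
  A : ∀ (K : Subgroup G), K.lowerCentralSeries c = ⊥ → ∀ k x y, x ∈ K → y ∈ K →
    ∃ z ∈ K, x ^ (p ^ k) * y ^ (p ^ k) = z ^ (p ^ k)
  B : ∀ (K : Subgroup G), K.lowerCentralSeries c = ⊥ → ∀ k (X : Set G), X ⊆ K →
    (∀ x ∈ X, x ^ (p ^ k) = 1) → ∀ g ∈ closure X, g ^ (p ^ k) = 1

lemma RG.pw_mem {p c : ℕ} (h : RG G p c) (K : Subgroup G) (hK : K.lowerCentralSeries c = ⊥) (k : ℕ)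
    {w : G} (hw : w ∈ pw K (p ^ k)) : ∃ z ∈ K, w = z ^ (p ^ k) := by
  unfold pw at hw
  induction hw using Subgroup.closure_induction with
  | mem x hx => exact hx
  | one => exact ⟨1, one_mem _, by simp⟩
  | mul a b _ _ ha hb =>
    obtain ⟨x, hx, rfl⟩ := ha
    obtain ⟨y, hy, rfl⟩ := hb
    exact h.A K hK k x y hx hy
  | inv a _ ha =>
    obtain ⟨x, hx, rfl⟩ := ha
    exact ⟨x⁻¹, inv_mem hx, by simp⟩

lemma comm_eq_one_of_class_one {K : Subgroup G} (hK : K.lowerCentralSeries 1 = ⊥) {x y : G}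
    (hx : x ∈ K) (hy : y ∈ K) : x * y = y * x := by
  rw [← commutatorElement_eq_one_iff_mul_comm]
  have : ⁅x, y⁆ ∈ K.lowerCentralSeries 1 := commutator_mem_commutator hx hy
  rw [hK] at this
  simpa using this

lemma rg {p : ℕ} [hp : Fact p.Prime] (c : ℕ) (hc1 : 1 ≤ c) (hcp : c ≤ p - 1) : RG G p c := by
  induction c with
  | zero => omega
  | succ c ih =>
    rcases Nat.eq_zero_or_pos c with h0 | h0
    · subst h0
      refine ⟨?_, ?_⟩
      · intro K hK k x y hx hy
        exact ⟨x * y, mul_mem hx hy,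
          ((show Commute x y from comm_eq_one_of_class_one hK hx hy).mul_pow _).symm⟩
      · intro K hK k X hX h1 g hg
        have hXK : closure X ≤ K := (closure_le K).2 hX
        induction hg using Subgroup.closure_induction with
        | mem x hx => exact h1 x hx
        | one => simp
        | mul a b ha' hb' ha hb =>
          rw [(show Commute a b from comm_eq_one_of_class_one hK (hXK ha') (hXK hb')).mul_pow,
            ha, hb, one_mul]
        | inv a _ ha => rw [inv_pow, ha, inv_one]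
    · have IH := ih h0 (by omega)
      refine ⟨?_, ?_⟩
      · intro K hK k x y hx hy
        have hKp : K.lowerCentralSeries (p - 1) = ⊥ :=
          le_bot_iff.1 ((K.lowerCentralSeries_antitone hcp).trans (le_of_eq hK))
        have h1 := hp_hp k K hKp hx hy
        obtain ⟨h, hh, he⟩ := IH.pw_mem ⁅K, K⁆ (comm_class K c h0 hK) k h1
        obtain ⟨z, hz, hze⟩ := IH.A (kx K (x * y)) (kx_class K (mul_mem hx hy) c h0 hK) k
          (x * y) h⁻¹ (mem_kx K _) (inv_mem (comm_le_kx K _ hh))
        refine ⟨z, kx_le K (mul_mem hx hy) hz, ?_⟩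
        rw [← hze, inv_pow, ← he]
        group
      · intro K hK k X hX h1 g hg
        have hXK : closure X ≤ K := (closure_le K).2 hX
        induction hg using Subgroup.closure_induction with
        | mem x hx => exact h1 x hx
        | one => simp
        | mul a b ha' hb' ha hb =>
          set L := closure ({a, b} : Set G) with hL
          have haL : a ∈ L := subset_closure (by simp)
          have hbL : b ∈ L := subset_closure (by simp)
          have hLK : L ≤ K := by
            refine (closure_le K).2 ?_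
            intro z hz
            rcases hz with rfl | hz
            · exact hXK ha'
            · rw [Set.mem_singleton_iff] at hz
              subst hz; exact hXK hb'
          have hLc : L.lowerCentralSeries (c + 1) = ⊥ := class_mono hLK hK
          have hLp : L.lowerCentralSeries (p - 1) = ⊥ :=
            le_bot_iff.1 ((L.lowerCentralSeries_antitone hcp).trans (le_of_eq hLc))
          have hcomm : ⁅a, b⁆ ^ (p ^ k) = 1 := by
            refine IH.B (kx L a) (kx_class L haL c h0 hLc) k {a, b * a⁻¹ * b⁻¹} ?_ ?_ _ ?_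
            · rintro z (rfl | hz)
              · exact mem_kx L _
              · rw [Set.mem_singleton_iff] at hz
                subst hz
                have e : b * a⁻¹ * b⁻¹ = a⁻¹ * ⁅a, b⁆ := by
                  simp only [commutatorElement_def]; group
                rw [e]
                exact mul_mem (inv_mem (mem_kx L a))
                  (comm_le_kx L a (commutator_mem_commutator haL hbL))
            · rintro z (rfl | hz)
              · exact ha
              · rw [Set.mem_singleton_iff] at hz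
                subst hz
                exact conj_pow_eq_one (by rw [inv_pow, ha, inv_one])
            · have e : ⁅a, b⁆ = a * (b * a⁻¹ * b⁻¹) := by
                simp only [commutatorElement_def]; group
              rw [e]
              exact mul_mem (subset_closure (by simp)) (subset_closure (by simp))
          have hexp : ∀ g ∈ ⁅L, L⁆, g ^ (p ^ k) = 1 := by
            intro g hg
            have hg' := comm_gen _ hg
            refine IH.B ⁅L, L⁆ (comm_class L c h0 hLc) k _ ?_ ?_ g hg'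
            · rintro z ⟨x, hx, y, hy, h, hh, rfl⟩
              have hx' : x ∈ L := subset_closure hx
              have hy' : y ∈ L := subset_closure hy
              have e : h * ⁅x, y⁆ * h⁻¹ = ⁅h * x * h⁻¹, h * y * h⁻¹⁆ := by
                simp only [commutatorElement_def]; group
              rw [e]
              exact commutator_mem_commutator (mul_mem (mul_mem hh hx') (inv_mem hh))
                (mul_mem (mul_mem hh hy') (inv_mem hh))
            · rintro z ⟨x, hx, y, hy, h, hh, rfl⟩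
              refine conj_pow_eq_one ?_
              rcases hx with rfl | hx
              · rcases hy with rfl | hy
                · simp
                · rw [Set.mem_singleton_iff] at hy
                  subst hy; exact hcomm
              · rw [Set.mem_singleton_iff] at hx
                subst hx
                rcases hy with rfl | hy
                · rw [← commutatorElement_inv, inv_pow, hcomm, inv_one]
                · rw [Set.mem_singleton_iff] at hy
                  subst hy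
                  simp
          have h2 := hp_hp k L hLp haL hbL
          rw [ha, hb] at h2
          have h3 : pw ⁅L, L⁆ (p ^ k) ≤ ⊥ := by
            refine (closure_le _).2 ?_
            rintro z ⟨h, hh, rfl⟩
            simpa using hexp h hh
          simpa using h3 h2
        | inv a _ ha => rw [inv_pow, ha, inv_one]

/-- `(ab)^q = a^q b^q` when commutators of generators have order dividing `q` -/
lemma L0 {p : ℕ} [hp : Fact p.Prime] (k : ℕ) (X : Set G)
    (hX : (closure X).lowerCentralSeries (p - 1) = ⊥)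
    (h : ∀ x ∈ X, ∀ y ∈ X, ⁅x, y⁆ ^ (p ^ k) = 1) {a b : G} (ha : a ∈ closure X)
    (hb : b ∈ closure X) : (a * b) ^ (p ^ k) = a ^ (p ^ k) * b ^ (p ^ k) := by
  have h2 := hp_hp k (closure X) hX ha hb
  have hp2 := hp.out.two_le
  have h3 : pw ⁅closure X, closure X⁆ (p ^ k) ≤ ⊥ := by
    refine (closure_le _).2 ?_
    rintro z ⟨g, hg, rfl⟩
    have hg' := comm_gen _ hg
    have := (rg (G := G) (p := p) (p - 1) (by omega) le_rfl).B (closure X) hX k _ (by
      rintro z ⟨x, hx, y, hy, h, hh, rfl⟩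
      have hx' : x ∈ closure X := subset_closure hx
      have hy' : y ∈ closure X := subset_closure hy
      have hxy : ⁅x, y⁆ ∈ closure X := comm_le_self _ (commutator_mem_commutator hx' hy')
      exact mul_mem (mul_mem hh hxy) (inv_mem hh)) (by
      rintro z ⟨x, hx, y, hy, g', hh, rfl⟩
      exact conj_pow_eq_one (h x hx y hy)) g hg'
    simpa using this
  have h4 : (b ^ (p ^ k))⁻¹ * (a ^ (p ^ k))⁻¹ * (a * b) ^ (p ^ k) = 1 := by simpa using h3 h2
  have h5 : (a ^ (p ^ k) * b ^ (p ^ k))⁻¹ * (a * b) ^ (p ^ k) = 1 := by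
    rw [mul_inv_rev]; exact h4
  exact (inv_mul_eq_one.1 h5).symm

lemma L0pair {p : ℕ} [hp : Fact p.Prime] (k : ℕ) (K : Subgroup G)
    (hK : K.lowerCentralSeries (p - 1) = ⊥) {x y : G} (hx : x ∈ K) (hy : y ∈ K)
    (h : ⁅x, y⁆ ^ (p ^ k) = 1) : (x * y) ^ (p ^ k) = x ^ (p ^ k) * y ^ (p ^ k) := by
  have hle : closure ({x, y} : Set G) ≤ K := by
    refine (closure_le K).2 ?_
    rintro z (rfl | hz)
    · exact hx
    · rw [Set.mem_singleton_iff] at hz
      subst hz; exact hy
  refine L0 k {x, y} (class_mono hle hK) ?_ (subset_closure (by simp)) (subset_closure (by simp))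
  rintro a (rfl | ha) b (rfl | hb)
  · simp
  · rw [Set.mem_singleton_iff] at hb
    subst hb; exact h
  · rw [Set.mem_singleton_iff] at ha
    subst ha
    rw [← commutatorElement_inv, inv_pow, h, inv_one]
  · rw [Set.mem_singleton_iff] at ha hb
    subst ha; subst hb; simp

lemma L3a {p : ℕ} [hp : Fact p.Prime] (c : ℕ) (hcp : c ≤ p - 1) (k : ℕ) (K : Subgroup G)
    (hK : K.lowerCentralSeries c = ⊥) {x y : G} (hx : x ∈ K) (hy : y ∈ K)
    (h : x ^ (p ^ k) = y ^ (p ^ k)) : (x⁻¹ * y) ^ (p ^ k) = 1 := by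
  induction c generalizing K x y with
  | zero =>
    rw [Subgroup.lowerCentralSeries_zero] at hK
    subst hK
    rw [Subgroup.mem_bot] at hx hy
    subst hx; subst hy; simp
  | succ c ih =>
    have hKp : K.lowerCentralSeries (p - 1) = ⊥ :=
      le_bot_iff.1 ((K.lowerCentralSeries_antitone hcp).trans (le_of_eq hK))
    have hcomm : ⁅x⁻¹, y⁆ ^ (p ^ k) = 1 := by
      rcases Nat.eq_zero_or_pos c with h0 | h0
      · subst h0
        rw [(commutatorElement_eq_one_iff_mul_comm).2
          (comm_eq_one_of_class_one hK (inv_mem hx) hy), one_pow]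
      · have h1 := ih (by omega) (kx K x) (kx_class K hx c h0 hK) (x := x) (y := y * x * y⁻¹)
          (mem_kx K x) (by
            have e : y * x * y⁻¹ = ⁅y, x⁆ * x := by simp only [commutatorElement_def]; group
            rw [e]
            exact mul_mem (comm_le_kx K x (commutator_mem_commutator hy hx)) (mem_kx K x)) (by
            rw [conj_pow, h]
            group)
        have e : ⁅x⁻¹, y⁆ = x⁻¹ * (y * x * y⁻¹) := by simp only [commutatorElement_def]; group
        rw [e]; exact h1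
    rw [L0pair k K hKp (inv_mem hx) hy hcomm, inv_pow, h, inv_mul_cancel]

lemma L3b {p : ℕ} [hp : Fact p.Prime] (k : ℕ) (K : Subgroup G)
    (hK : K.lowerCentralSeries (p - 1) = ⊥) {x y : G} (hx : x ∈ K) (hy : y ∈ K)
    (h : (x⁻¹ * y) ^ (p ^ k) = 1) : x ^ (p ^ k) = y ^ (p ^ k) := by
  have hp2 := hp.out.two_le
  set u := x⁻¹ * y with hu
  have huK : u ∈ K := mul_mem (inv_mem hx) hy
  have hcomm : ⁅x, u⁆ ^ (p ^ k) = 1 := by
    refine (rg (G := G) (p := p) (p - 1) (by omega) le_rfl).B K hK k {x * u * x⁻¹, u⁻¹} ?_ ?_ _ ?_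
    · rintro z (rfl | hz)
      · exact mul_mem (mul_mem hx huK) (inv_mem hx)
      · rw [Set.mem_singleton_iff] at hz
        subst hz; exact inv_mem huK
    · rintro z (rfl | hz)
      · exact conj_pow_eq_one h
      · rw [Set.mem_singleton_iff] at hz
        subst hz; rw [inv_pow, h, inv_one]
    · have e : ⁅x, u⁆ = (x * u * x⁻¹) * u⁻¹ := by simp only [commutatorElement_def]
      rw [e]
      exact mul_mem (subset_closure (by simp)) (subset_closure (by simp))
  have h1 := L0pair k K hK hx huK hcomm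
  have e : x * u = y := by rw [hu]; group
  rw [e, h, mul_one] at h1
  exact h1.symm

lemma L3 {p : ℕ} [hp : Fact p.Prime] (k : ℕ) (hG : (⊤ : Subgroup G).lowerCentralSeries (p - 1) = ⊥)
    (x y : G) : x ^ (p ^ k) = y ^ (p ^ k) ↔ (x⁻¹ * y) ^ (p ^ k) = 1 :=
  ⟨fun h => L3a (p - 1) le_rfl k ⊤ hG (mem_top x) (mem_top y) h,
    fun h => L3b k ⊤ hG (mem_top x) (mem_top y) h⟩

lemma L4 {p : ℕ} [hp : Fact p.Prime] (k l : ℕ)
    (hG : (⊤ : Subgroup G).lowerCentralSeries (p - 1) = ⊥)
    (x y : G) : ⁅x ^ (p ^ k), y ^ (p ^ l)⁆ = 1 ↔ ⁅x, y⁆ ^ (p ^ (k + l)) = 1 := by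
  have s1 : ⁅x ^ (p ^ k), y ^ (p ^ l)⁆ = 1 ↔
      y ^ (p ^ l) = (x ^ (p ^ k) * y * (x ^ (p ^ k))⁻¹) ^ (p ^ l) := by
    rw [conj_pow, commutatorElement_eq_one_iff_mul_comm]
    constructor
    · intro h; rw [h]; group
    · intro h
      rw [eq_mul_inv_iff_mul_eq] at h
      exact h.symm
  have s2 := L3 (p := p) l hG y (x ^ (p ^ k) * y * (x ^ (p ^ k))⁻¹)
  have s3 : (y⁻¹ * (x ^ (p ^ k) * y * (x ^ (p ^ k))⁻¹)) =
      ((y⁻¹ * x⁻¹ * y) ^ (p ^ k))⁻¹ * (x⁻¹) ^ (p ^ k) := by
    have : y⁻¹ * x⁻¹ * y = y⁻¹ * x⁻¹ * (y⁻¹)⁻¹ := by group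
    rw [this, conj_pow]
    simp only [inv_pow]
    group
  have s4 := L3 (p := p) l hG ((y⁻¹ * x⁻¹ * y) ^ (p ^ k)) ((x⁻¹) ^ (p ^ k))
  have s5 := L3 (p := p) (k + l) hG (y⁻¹ * x⁻¹ * y) (x⁻¹)
  rw [s1, s2, s3, ← s4, ← pow_mul, ← pow_mul, ← pow_add, s5]
  have e : ⁅x, y⁆ = y * ((y⁻¹ * x⁻¹ * y)⁻¹ * x⁻¹) * y⁻¹ := by
    simp only [commutatorElement_def]; group
  rw [e, conj_pow]
  constructor
  · intro h; rw [h]; simp
  · intro h
    have : (y⁻¹ * x⁻¹ * y)⁻¹ * x⁻¹ = (y⁻¹ * x⁻¹ * y)⁻¹ * x⁻¹ := rfl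
    rw [mul_inv_eq_one] at h
    have h' : y * (((y⁻¹ * x⁻¹ * y)⁻¹ * x⁻¹) ^ (p ^ (k + l))) = y * 1 := by rw [h, mul_one]
    exact mul_left_cancel h'

instance pw_normal (q : ℕ) : (pw (⊤ : Subgroup G) q).Normal := by
  refine ⟨fun n hn g => ?_⟩
  unfold pw at hn ⊢
  induction hn using Subgroup.closure_induction with
  | mem x hx =>
    obtain ⟨h, -, rfl⟩ := hx
    refine subset_closure ⟨g * h * g⁻¹, mem_top _, ?_⟩
    rw [conj_pow]
  | one => simp
  | mul a b _ _ ha hb =>
    have := mul_mem ha hb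
    have e : g * a * g⁻¹ * (g * b * g⁻¹) = g * (a * b) * g⁻¹ := by group
    rwa [e] at this
  | inv a _ ha =>
    have := inv_mem ha
    have e : (g * a * g⁻¹)⁻¹ = g * a⁻¹ * g⁻¹ := by group
    rwa [e] at this

lemma quot_class (N : Subgroup G) [N.Normal] {c : ℕ}
    (hG : (⊤ : Subgroup G).lowerCentralSeries c = ⊥) :
    (⊤ : Subgroup (G ⧸ N)).lowerCentralSeries c = ⊥ := by
  have h := map_lowerCentralSeries (⊤ : Subgroup G) (QuotientGroup.mk' N) c
  rw [hG, Subgroup.map_bot, Subgroup.map_top_of_surjective _ (QuotientGroup.mk'_surjective N)] at h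
  exact h.symm

lemma U1 {p : ℕ} [hp : Fact p.Prime] (k l : ℕ)
    (hG : (⊤ : Subgroup G).lowerCentralSeries (p - 1) = ⊥)
    (x y : G) : ⁅x ^ (p ^ k), y ^ (p ^ l)⁆ ∈ pw (⊤ : Subgroup G) (p ^ (k + l)) := by
  rw [← QuotientGroup.eq_one_iff]
  have h := (L4 (p := p) k l (quot_class (pw (⊤ : Subgroup G) (p ^ (k + l))) hG)
    (x : G ⧸ pw (⊤ : Subgroup G) (p ^ (k + l))) (y : G ⧸ pw (⊤ : Subgroup G) (p ^ (k + l)))).2 (by
      have : (((⁅x, y⁆) ^ (p ^ (k + l)) : G) : G ⧸ pw (⊤ : Subgroup G) (p ^ (k + l))) = 1 :=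
        (QuotientGroup.eq_one_iff _).2 (pow_mem_pw (mem_top _) _)
      simpa [commutatorElement_def] using this)
  simpa [commutatorElement_def] using h

end Reg

end Pool.H67.Esq.TF
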