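import Pool.Agent.H67.Esq.TF.Noe

set_option autoImplicit false

/-!
# Elementary abelian sections as vector spaces over `ZMod p`
-/

namespace Pool.H67.Esq.TF

open Subgroup
open scoped commutatorElement

universe u v

/-- an elementary abelian section `A / B` -/
structure SecData (P : Type u) [Group P] (p : ℕ) where
  A : Subgroup P
  B : Subgroup P
  nB : B.Normal
  comm : ∀ a ∈ A, ∀ b ∈ A, ⁅a, b⁆ ∈ B
  pow : ∀ a ∈ A, a ^ p ∈ B

section

variable {P : Type u} [Group P] {p : ℕ}

instance secNormal (d : SecData P p) : (d.B.subgroupOf d.A).Normal :=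
  @Subgroup.normal_subgroupOf _ _ d.A d.B d.nB

/-- the section `A / (A ∩ B)`, additively -/
def Sec (d : SecData P p) : Type u := Additive (d.A ⧸ d.B.subgroupOf d.A)

instance secAddGroup (d : SecData P p) : AddGroup (Sec d) :=
  inferInstanceAs (AddGroup (Additive (d.A ⧸ d.B.subgroupOf d.A)))

/-- class of an element -/
def mk (d : SecData P p) (a : d.A) : Sec d := Additive.ofMul (QuotientGroup.mk a)

lemma mk_surj (d : SecData P p) (x : Sec d) : ∃ a : d.A, mk d a = x := by
  obtain ⟨a, ha⟩ := QuotientGroup.mk_surjective (Additive.toMul x)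
  exact ⟨a, by rw [mk, ha]; rfl⟩

lemma mk_mul (d : SecData P p) (a b : d.A) : mk d (a * b) = mk d a + mk d b := rfl

lemma mk_one (d : SecData P p) : mk d 1 = 0 := rfl

lemma mk_inv (d : SecData P p) (a : d.A) : mk d a⁻¹ = - mk d a := rfl

lemma mk_pow (d : SecData P p) (a : d.A) (n : ℕ) : mk d (a ^ n) = n • mk d a := rfl

lemma mk_eq_zero (d : SecData P p) (a : d.A) : mk d a = 0 ↔ (a : P) ∈ d.B := by
  have h : mk d a = 0 ↔ (QuotientGroup.mk a : d.A ⧸ d.B.subgroupOf d.A) = 1 := Iff.rfl
  rw [h, QuotientGroup.eq_one_iff, Subgroup.mem_subgroupOf]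

lemma mk_eq (d : SecData P p) (a b : d.A) : mk d a = mk d b ↔ (a : P)⁻¹ * b ∈ d.B := by
  rw [← neg_add_eq_zero, ← mk_inv, ← mk_mul, mk_eq_zero]
  rfl

instance secAddComm (d : SecData P p) : AddCommGroup (Sec d) :=
  { secAddGroup d with
    add_comm := by
      intro x y
      obtain ⟨a, rfl⟩ := mk_surj d x
      obtain ⟨b, rfl⟩ := mk_surj d y
      rw [← mk_mul, ← mk_mul, mk_eq]
      have h := d.comm (b : P)⁻¹ (inv_mem b.2) (a : P)⁻¹ (inv_mem a.2)
      simpa [commutatorElement_def, mul_assoc] using h }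

noncomputable instance secModule (d : SecData P p) : Module (ZMod p) (Sec d) :=
  AddCommGroup.zmodModule (n := p) (by
    intro x
    obtain ⟨a, rfl⟩ := mk_surj d x
    rw [← mk_pow, mk_eq_zero]
    exact d.pow a a.2)

/-- linear maps out of a section -/
noncomputable def lift (d : SecData P p) {E : Type v} [AddCommGroup E] [Module (ZMod p) E]
    (f : d.A → E) (hmul : ∀ a b, f (a * b) = f a + f b) (hB : ∀ a : d.A, (a : P) ∈ d.B → f a = 0) :
    Sec d →ₗ[ZMod p] E :=
  AddMonoidHom.toZModLinearMap p (MonoidHom.toAdditiveLeft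
    (QuotientGroup.lift (d.B.subgroupOf d.A)
      ({ toFun := fun a => Multiplicative.ofAdd (f a)
         map_one' := by
          have := hB 1 (one_mem _)
          rw [this]; rfl
         map_mul' := fun a b => by rw [hmul]; rfl } : d.A →* Multiplicative E)
      (by
        intro a ha
        exact congrArg Multiplicative.ofAdd (hB a (Subgroup.mem_subgroupOf.1 ha)))))

lemma lift_mk (d : SecData P p) {E : Type v} [AddCommGroup E] [Module (ZMod p) E]
    (f : d.A → E) (hmul : ∀ a b, f (a * b) = f a + f b) (hB : ∀ a : d.A, (a : P) ∈ d.B → f a = 0)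
    (a : d.A) : lift d f hmul hB (mk d a) = f a := rfl

lemma zmod_cast_smul (d : SecData P p) (n : ℕ) (x : Sec d) : ((n : ZMod p)) • x = n • x :=
  Nat.cast_smul_eq_nsmul (ZMod p) n x

end

end Pool.H67.Esq.TF
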