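import Mathlib
import Pool.Agent.H67.Esq.TF.Fin

set_option autoImplicit false

/-!
# Growth of groups with torsion-free nilpotent quotients of unbounded class
-/

namespace Pool.H67.Esq.TF

/-- `G` is residually torsion-free nilpotent: every `g ≠ 1` survives in some torsion-free
nilpotent quotient of `G`. -/
def ResTorsionFreeNilpotent (G : Type*) [Group G] : Prop :=
  ∀ g : G, g ≠ 1 → ∃ (N : Subgroup G) (_ : N.Normal), g ∉ N ∧ Group.IsNilpotent (G ⧸ N) ∧
    TFree (G ⧸ N)

/-- the torsion-free nilpotent quotients of `G` have unbounded nilpotency class. -/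
def UnboundedTorsionFreeClass (G : Type*) [Group G] : Prop :=
  ∀ c : ℕ, ∃ (N : Subgroup G) (_ : N.Normal), Group.IsNilpotent (G ⧸ N) ∧ TFree (G ⧸ N) ∧
    c ≤ Group.nilpotencyClass (G ⧸ N)

/-- **Theorem.** Let `G` be generated by the finite set `S`. If the torsion-free nilpotent
quotients of `G` have unbounded class, then the growth of `G` is at least `exp (c √(n log n))`.
In particular, a residually torsion-free nilpotent group `G` with growth at most `exp (√(C n))`
is nilpotent. -/
theorem tf_main {G : Type*} [Group G] (S : Finset G)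
    (hS : Subgroup.closure (S : Set G) = ⊤) :
    (UnboundedTorsionFreeClass G → ∃ c : ℝ, 0 < c ∧ ∀ n : ℕ, 2 ≤ n →
      Real.exp (c * Real.sqrt ((n : ℝ) * Real.log n)) ≤ growth S n) ∧
    (ResTorsionFreeNilpotent G →
      (∃ C : ℝ, 1 ≤ C ∧ ∀ n : ℕ, (growth S n : ℝ) ≤ Real.exp (Real.sqrt (C * n))) →
      Group.IsNilpotent G) := by
  have h1 : UnboundedTorsionFreeClass G → ∃ c : ℝ, 0 < c ∧ ∀ n : ℕ, 2 ≤ n →
      Real.exp (c * Real.sqrt ((n : ℝ) * Real.log n)) ≤ growth S n := fun h => growth_tf S hS h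
  have h2 : ResTorsionFreeNilpotent G → ¬ Group.IsNilpotent G → UnboundedTorsionFreeClass G := by
    intro hR hN c
    by_contra hcon
    push Not at hcon
    apply hN
    refine Subgroup.nilpotent_iff_lowerCentralSeries.2 ⟨c, ?_⟩
    rw [eq_bot_iff]
    intro g hg
    rw [Subgroup.mem_bot]
    by_contra hg1
    obtain ⟨N, hNn, hgN, hnil, hTF⟩ := hR g hg1
    apply hgN
    have h3 := hcon N hNn hnil hTF
    have h4 : (⊤ : Subgroup (G ⧸ N)).lowerCentralSeries c = ⊥ :=
      (Subgroup.lowerCentralSeries_eq_bot_iff_nilpotencyClass_le).2 h3.le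
    have h5 := Subgroup.map_lowerCentralSeries (⊤ : Subgroup G) (QuotientGroup.mk' N) c
    rw [Subgroup.map_top_of_surjective _ (QuotientGroup.mk'_surjective N), h4] at h5
    have h6 : QuotientGroup.mk' N g ∈ ((⊤ : Subgroup G).lowerCentralSeries c).map
        (QuotientGroup.mk' N) := ⟨g, hg, rfl⟩
    rw [h5, Subgroup.mem_bot] at h6
    exact (QuotientGroup.eq_one_iff g).1 h6
  refine ⟨h1, ?_⟩
  rintro hR ⟨C, -, hC⟩
  by_contra hN
  obtain ⟨c, hc, h3⟩ := h1 (h2 hR hN)
  exact not_le_exp_sqrt (growth S) c hc h3 C hC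

end Pool.H67.Esq.TF
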