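import Pool.Agent.H67.Esq.TF.Reg

set_option autoImplicit false

/-!
# Torsion-free nilpotent groups: unique roots, quotients by the centre
-/

namespace Pool.H67.Esq.TF

open Subgroup
open scoped commutatorElement

universe u

/-- torsion-free -/
def TFree (G : Type u) [Group G] : Prop := ∀ g : G, ∀ n : ℕ, 1 ≤ n → g ^ n = 1 → g = 1

section

variable {G : Type u} [Group G]

lemma roots_aux (hT : TFree G) (c : ℕ) (K : Subgroup G) (hK : K.lowerCentralSeries c = ⊥)
    {x y : G} (hx : x ∈ K) (hy : y ∈ K) {n : ℕ} (hn : 1 ≤ n) (h : x ^ n = y ^ n) : x = y := by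
  induction c generalizing K x y with
  | zero =>
    rw [Subgroup.lowerCentralSeries_zero] at hK
    subst hK
    rw [Subgroup.mem_bot] at hx hy
    rw [hx, hy]
  | succ c ih =>
    have hcomm : x * y = y * x := by
      rcases Nat.eq_zero_or_pos c with h0 | h0
      · subst h0
        exact comm_eq_one_of_class_one hK hx hy
      · have h1 := ih (kx K x) (kx_class K hx c h0 hK) (x := x) (y := y * x * y⁻¹)
          (mem_kx K x) (by
            have e : y * x * y⁻¹ = ⁅y, x⁆ * x := by simp only [commutatorElement_def]; group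
            rw [e]
            exact mul_mem (comm_le_kx K x (commutator_mem_commutator hy hx)) (mem_kx K x)) (by
            rw [conj_pow, h]
            group)
        rw [eq_mul_inv_iff_mul_eq] at h1
        exact h1
    have hc : Commute x⁻¹ y := (show Commute x y from hcomm).inv_left
    have h2 : (x⁻¹ * y) ^ n = 1 := by
      rw [hc.mul_pow, inv_pow, h, inv_mul_cancel]
    have h3 := hT _ n hn h2
    rw [inv_mul_eq_one] at h3
    exact h3

lemma class_exists [hN : Group.IsNilpotent G] : ∃ c, (⊤ : Subgroup G).lowerCentralSeries c = ⊥ :=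
  Subgroup.nilpotent_iff_lowerCentralSeries.1 hN

lemma roots [Group.IsNilpotent G] (hT : TFree G) {x y : G} {n : ℕ} (hn : 1 ≤ n)
    (h : x ^ n = y ^ n) : x = y := by
  obtain ⟨c, hc⟩ := class_exists (G := G)
  exact roots_aux hT c ⊤ hc (mem_top x) (mem_top y) hn h

lemma commute_of_pow [Group.IsNilpotent G] (hT : TFree G) {x y : G} {n : ℕ} (hn : 1 ≤ n)
    (h : x ^ n * y = y * x ^ n) : x * y = y * x := by
  have h1 : x ^ n = (y * x * y⁻¹) ^ n := by
    rw [conj_pow, ← h]; group
  have h2 := roots hT hn h1
  rw [eq_mul_inv_iff_mul_eq] at h2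
  exact h2

lemma center_of_pow [Group.IsNilpotent G] (hT : TFree G) {x : G} {n : ℕ} (hn : 1 ≤ n)
    (h : x ^ n ∈ Subgroup.center G) : x ∈ Subgroup.center G := by
  rw [Subgroup.mem_center_iff] at h ⊢
  intro g
  exact (commute_of_pow hT hn (h g).symm).symm

lemma tfree_quot [Group.IsNilpotent G] (hT : TFree G) : TFree (G ⧸ Subgroup.center G) := by
  intro g n hn h
  induction g using QuotientGroup.induction_on with
  | _ g =>
    have h1 : ((g ^ n : G) : G ⧸ Subgroup.center G) = 1 := by rw [← h]; rfl
    rw [QuotientGroup.eq_one_iff] at h1 ⊢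
    exact center_of_pow hT hn h1

end

/-- quotients of exactly prescribed class -/
lemma exact_class (d m : ℕ) (G : Type u) [Group G] [Group.IsNilpotent G] (hT : TFree G)
    (hc : Group.nilpotencyClass G = m + d) :
    ∃ (P : Type u) (_ : Group P) (_ : Group.IsNilpotent P) (π : G →* P),
      Function.Surjective π ∧ TFree P ∧ Group.nilpotencyClass P = m := by
  induction d generalizing G with
  | zero => exact ⟨G, inferInstance, inferInstance, MonoidHom.id G, fun x => ⟨x, rfl⟩, hT, hc⟩
  | succ d ih =>
    have h1 := Group.nilpotencyClass_quotient_center (G := G)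
    rw [hc] at h1
    obtain ⟨P, i1, i2, π, h2, h3, h4⟩ := ih (G ⧸ Subgroup.center G) (tfree_quot hT)
      (by rw [h1]; omega)
    exact ⟨P, i1, i2, π.comp (QuotientGroup.mk' _), h2.comp (QuotientGroup.mk'_surjective _), h3, h4⟩

end Pool.H67.Esq.TF
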