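import Pool.Agent.H67.Esq.TF.Sec

set_option autoImplicit false

/-!
# The sections `V = P_1 / P_2`, `E = P_2 / P_3` of a torsion-free group of class less than `p`
-/

namespace Pool.H67.Esq.TF

open Subgroup
open scoped commutatorElement

universe u

section

variable {P : Type u} [Group P] {p : ℕ} [hp : Fact p.Prime]

/-- class less than `p` -/
def Small (P : Type u) [Group P] (p : ℕ) : Prop := (⊤ : Subgroup P).lowerCentralSeries (p - 1) = ⊥

lemma small_rg (P : Type u) [Group P] : RG P p (p - 1) :=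
  rg (p - 1) (by have := hp.out.two_le; omega) le_rfl

lemma Small.mem_pw (hP : Small P p) {k : ℕ} {w : P} (hw : w ∈ pw (⊤ : Subgroup P) (p ^ k)) :
    ∃ z, w = z ^ (p ^ k) := by
  obtain ⟨z, -, h⟩ := (small_rg P).pw_mem ⊤ hP k hw
  exact ⟨z, h⟩

omit hp in
lemma pw_anti {k l : ℕ} (h : k ≤ l) :
    pw (⊤ : Subgroup P) (p ^ l) ≤ pw (⊤ : Subgroup P) (p ^ k) := by
  refine (closure_le _).2 ?_
  rintro z ⟨x, -, rfl⟩
  obtain ⟨m, rfl⟩ := Nat.exists_eq_add_of_le h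
  rw [pow_add, mul_comm, pow_mul]
  exact pow_mem_pw (mem_top _) _

lemma Small.comm_mem (hP : Small P p) {k l : ℕ} {a b : P} (ha : a ∈ pw (⊤ : Subgroup P) (p ^ k))
    (hb : b ∈ pw (⊤ : Subgroup P) (p ^ l)) : ⁅a, b⁆ ∈ pw (⊤ : Subgroup P) (p ^ (k + l)) := by
  obtain ⟨x, rfl⟩ := hP.mem_pw ha
  obtain ⟨y, rfl⟩ := hP.mem_pw hb
  exact U1 k l hP x y

lemma Small.pow_mem' (hP : Small P p) {k : ℕ} {a : P} (ha : a ∈ pw (⊤ : Subgroup P) (p ^ k)) :
    a ^ p ∈ pw (⊤ : Subgroup P) (p ^ (k + 1)) := by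
  obtain ⟨x, rfl⟩ := hP.mem_pw ha
  rw [← pow_mul, ← pow_succ]
  exact pow_mem_pw (mem_top _) _

/-- the section `P_k / P_{k+1}`, `k ≥ 1` -/
def secD (hP : Small P p) (k : ℕ) (hk : 1 ≤ k) : SecData P p where
  A := pw (⊤ : Subgroup P) (p ^ k)
  B := pw (⊤ : Subgroup P) (p ^ (k + 1))
  nB := inferInstance
  comm := fun _ ha _ hb => pw_anti (by omega) (hP.comm_mem ha hb)
  pow := fun _ ha => hP.pow_mem' ha

/-- `V = P_1 / P_2` -/
abbrev VV (hP : Small P p) := Sec (secD hP 1 le_rfl)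

/-- `E = P_2 / P_3` -/
abbrev EE (hP : Small P p) := Sec (secD hP 2 (by omega))

/-- the class of an element of `P_1` in `V` -/
def mkV (hP : Small P p) (a : P) (ha : a ∈ pw (⊤ : Subgroup P) (p ^ 1)) : VV hP :=
  mk (secD hP 1 le_rfl) ⟨a, ha⟩

/-- the class of an element of `P_2` in `E` -/
def mkE (hP : Small P p) (a : P) (ha : a ∈ pw (⊤ : Subgroup P) (p ^ 2)) : EE hP :=
  mk (secD hP 2 (by omega)) ⟨a, ha⟩

lemma mkV_mul (hP : Small P p) (a b : P) (ha : a ∈ pw (⊤ : Subgroup P) (p ^ 1))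
    (hb : b ∈ pw (⊤ : Subgroup P) (p ^ 1)) :
    mkV hP (a * b) (mul_mem ha hb) = mkV hP a ha + mkV hP b hb := rfl

lemma mkE_mul (hP : Small P p) (a b : P) (ha : a ∈ pw (⊤ : Subgroup P) (p ^ 2))
    (hb : b ∈ pw (⊤ : Subgroup P) (p ^ 2)) :
    mkE hP (a * b) (mul_mem ha hb) = mkE hP a ha + mkE hP b hb := rfl

lemma mkV_eq (hP : Small P p) (a b : P) (ha : a ∈ pw (⊤ : Subgroup P) (p ^ 1))
    (hb : b ∈ pw (⊤ : Subgroup P) (p ^ 1)) :
    mkV hP a ha = mkV hP b hb ↔ a⁻¹ * b ∈ pw (⊤ : Subgroup P) (p ^ 2) :=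
  mk_eq _ _ _

lemma mkE_eq (hP : Small P p) (a b : P) (ha : a ∈ pw (⊤ : Subgroup P) (p ^ 2))
    (hb : b ∈ pw (⊤ : Subgroup P) (p ^ 2)) :
    mkE hP a ha = mkE hP b hb ↔ a⁻¹ * b ∈ pw (⊤ : Subgroup P) (p ^ 3) :=
  mk_eq _ _ _

lemma mkV_zero (hP : Small P p) (a : P) (ha : a ∈ pw (⊤ : Subgroup P) (p ^ 1)) :
    mkV hP a ha = 0 ↔ a ∈ pw (⊤ : Subgroup P) (p ^ 2) := mk_eq_zero _ _

lemma mkE_zero (hP : Small P p) (a : P) (ha : a ∈ pw (⊤ : Subgroup P) (p ^ 2)) :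
    mkE hP a ha = 0 ↔ a ∈ pw (⊤ : Subgroup P) (p ^ 3) := mk_eq_zero _ _

omit hp in
lemma conj_mem_pw {q : ℕ} {a : P} (g : P) (ha : a ∈ pw (⊤ : Subgroup P) q) :
    g * a * g⁻¹ ∈ pw (⊤ : Subgroup P) q := (pw_normal q).conj_mem a ha g

/-- conjugation on `V` -/
noncomputable def actL (hP : Small P p) (g : P) : VV hP →ₗ[ZMod p] VV hP :=
  lift (secD hP 1 le_rfl) (fun a => mkV hP (g * a * g⁻¹) (conj_mem_pw g a.2))
    (by
      intro a b
      rw [← mkV_mul]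
      congr 1
      simp only [Subgroup.coe_mul]
      group)
    (by
      intro a ha
      rw [mkV_zero]
      exact conj_mem_pw g ha)

lemma actL_mk (hP : Small P p) (g a : P) (ha : a ∈ pw (⊤ : Subgroup P) (p ^ 1)) :
    actL hP g (mkV hP a ha) = mkV hP (g * a * g⁻¹) (conj_mem_pw g ha) := rfl

/-- the representation on `V` -/
noncomputable def rho (hP : Small P p) : P →* Module.End (ZMod p) (VV hP) where
  toFun := actL hP
  map_one' := by
    ext x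
    obtain ⟨a, rfl⟩ := mk_surj _ x
    change mkV hP (1 * (a : P) * 1⁻¹) _ = mkV hP (a : P) a.2
    congr 1
    simp
  map_mul' := fun g h => by
    ext x
    obtain ⟨a, rfl⟩ := mk_surj _ x
    change mkV hP (g * h * (a : P) * (g * h)⁻¹) _ = mkV hP (g * (h * (a : P) * h⁻¹) * g⁻¹) _
    congr 1
    group

lemma rho_mk (hP : Small P p) (g a : P) (ha : a ∈ pw (⊤ : Subgroup P) (p ^ 1)) :
    rho hP g (mkV hP a ha) = mkV hP (g * a * g⁻¹) (conj_mem_pw g ha) := rfl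

lemma comm_mem_two (hP : Small P p) {a : P} (ha : a ∈ pw (⊤ : Subgroup P) (p ^ 1)) (s : P) (n : ℕ) :
    ⁅a, s ^ (p * n)⁆ ∈ pw (⊤ : Subgroup P) (p ^ 2) := by
  refine hP.comm_mem (l := 1) ha ?_
  rw [mul_comm, pow_mul, pow_one]
  exact pow_mem_pw (mem_top _) _

/-- elements of `P_1` act trivially on `E` -/
lemma mkE_conj (hP : Small P p) {a c : P} (ha : a ∈ pw (⊤ : Subgroup P) (p ^ 1))
    (hc : c ∈ pw (⊤ : Subgroup P) (p ^ 2)) :
    mkE hP (a * c * a⁻¹) (conj_mem_pw a hc) = mkE hP c hc := by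
  rw [mkE_eq]
  have h := hP.comm_mem (inv_mem hc) ha
  have h2 := conj_mem_pw a⁻¹ (inv_mem h)
  have h3 := hP.comm_mem ha (inv_mem hc)
  have e : (a * c * a⁻¹)⁻¹ * c = ⁅a, c⁻¹⁆ := by
    simp only [commutatorElement_def]; group
  rw [e]
  exact h3

/-- the map `w ↦ [w, s^p]`, from `V` to `E` -/
noncomputable def beta (hP : Small P p) (s : P) : VV hP →ₗ[ZMod p] EE hP :=
  lift (secD hP 1 le_rfl) (fun a => mkE hP ⁅(a : P), s ^ (p * 1)⁆ (comm_mem_two hP a.2 s 1))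
    (by
      intro a b
      have e : ⁅((a * b : (secD hP 1 le_rfl).A) : P), s ^ (p * 1)⁆ =
          ((a : P) * ⁅(b : P), s ^ (p * 1)⁆ * (a : P)⁻¹) * ⁅(a : P), s ^ (p * 1)⁆ := by
        simp only [commutatorElement_def, Subgroup.coe_mul]; group
      have h1 := mkE_conj hP a.2 (comm_mem_two hP b.2 s 1)
      have h2 := mkE_mul hP _ _ (conj_mem_pw (a : P) (comm_mem_two hP b.2 s 1))
        (comm_mem_two hP a.2 s 1)
      rw [h1] at h2
      rw [add_comm, ← h2]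
      congr 1)
    (by
      intro a ha
      rw [mkE_zero]
      refine hP.comm_mem (k := 2) (l := 1) ha ?_
      rw [mul_one]
      have := pow_mem_pw (H := (⊤ : Subgroup P)) (mem_top s) (p ^ 1)
      simpa using this)

lemma beta_mk (hP : Small P p) (s a : P) (ha : a ∈ pw (⊤ : Subgroup P) (p ^ 1)) :
    beta hP s (mkV hP a ha) = mkE hP ⁅a, s ^ (p * 1)⁆ (comm_mem_two hP ha s 1) := rfl

/-- `[a, s^{pn}] = n β_s(a)` in `E` -/
lemma mkE_comm (hP : Small P p) (s a : P) (ha : a ∈ pw (⊤ : Subgroup P) (p ^ 1)) (n : ℕ) :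
    mkE hP ⁅a, s ^ (p * n)⁆ (comm_mem_two hP ha s n) = n • beta hP s (mkV hP a ha) := by
  induction n with
  | zero =>
    rw [zero_smul, mkE_zero]
    simp
  | succ n ih =>
    have hs : s ^ (p * n) ∈ pw (⊤ : Subgroup P) (p ^ 1) := by
      rw [mul_comm, pow_mul, pow_one]
      exact pow_mem_pw (mem_top _) _
    have e : ⁅a, s ^ (p * (n + 1))⁆ = ⁅a, s ^ (p * n)⁆ *
        (s ^ (p * n) * ⁅a, s ^ (p * 1)⁆ * (s ^ (p * n))⁻¹) := by
      rw [Nat.mul_succ, pow_add, mul_one]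
      simp only [commutatorElement_def]; group
    have h1 := mkE_conj hP hs (comm_mem_two hP ha s 1)
    have h2 := mkE_mul hP _ _ (comm_mem_two hP ha s n)
      (conj_mem_pw (s ^ (p * n)) (comm_mem_two hP ha s 1))
    rw [h1, ih, ← beta_mk hP s a ha] at h2
    rw [add_smul, one_smul, ← h2]
    congr 1

lemma beta_ker (hP : Small P p) [Group.IsNilpotent P] (hT : TFree P) (s : P) (x : VV hP)
    (hx : beta hP s x = 0) : rho hP s x = x := by
  obtain ⟨⟨a, ha0⟩, rfl⟩ := mk_surj _ x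
  have ha : a ∈ pw (⊤ : Subgroup P) (p ^ 1) := ha0
  change beta hP s (mkV hP a ha) = 0 at hx
  change rho hP s (mkV hP a ha) = mkV hP a ha
  obtain ⟨w, rfl⟩ := hP.mem_pw ha
  rw [beta_mk, mkE_zero] at hx
  rw [rho_mk, mkV_eq]
  -- in P / P_3
  have h1 : ⁅w, s⁆ ^ (p ^ (1 + 1)) ∈ pw (⊤ : Subgroup P) (p ^ 3) := by
    rw [← QuotientGroup.eq_one_iff]
    have h := (L4 (p := p) 1 1 (quot_class (pw (⊤ : Subgroup P) (p ^ 3)) hP)
      (w : P ⧸ pw (⊤ : Subgroup P) (p ^ 3)) (s : P ⧸ pw (⊤ : Subgroup P) (p ^ 3))).1 (by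
        have h0 := (QuotientGroup.eq_one_iff _).2 hx
        rw [mul_one] at h0
        rw [pow_one p]
        rw [pow_one p] at h0
        rw [commutatorElement_def] at h0 ⊢
        exact h0)
    rw [commutatorElement_def] at h ⊢
    exact h
  obtain ⟨y, hy⟩ := hP.mem_pw h1
  have h2 : ⁅w, s⁆ = y ^ p := by
    refine roots hT (n := p ^ (1 + 1)) (Nat.one_le_pow _ _ hp.out.pos) ?_
    rw [hy, ← pow_mul]
    congr 1
    ring
  -- in P / P_2
  have h3 := (L3 (p := p) 1 (quot_class (pw (⊤ : Subgroup P) (p ^ 2)) hP)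
      ((s * w * s⁻¹ : P) : P ⧸ pw (⊤ : Subgroup P) (p ^ 2))
      (w : P ⧸ pw (⊤ : Subgroup P) (p ^ 2))).2 (by
        have h4 : ((s * w * s⁻¹)⁻¹ * w) ^ (p ^ 1) ∈ pw (⊤ : Subgroup P) (p ^ 2) := by
          have e : (s * w * s⁻¹)⁻¹ * w = (w⁻¹ * y * w⁻¹⁻¹) ^ p := by
            rw [conj_pow, ← h2]
            simp only [commutatorElement_def]; group
          rw [e, ← pow_mul]
          have : p * p ^ 1 = p ^ 2 := by ring
          rw [this]
          exact pow_mem_pw (mem_top _) _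
        exact (QuotientGroup.eq_one_iff _).2 h4)
  have h5 : (((s * w * s⁻¹ : P) ^ (p ^ 1) : P) : P ⧸ pw (⊤ : Subgroup P) (p ^ 2)) =
      ((w ^ (p ^ 1) : P) : P ⧸ pw (⊤ : Subgroup P) (p ^ 2)) := h3
  rw [QuotientGroup.eq, conj_pow] at h5
  exact h5

/-- `V` is spanned by the conjugates of the `p`-th powers of the generators -/
lemma span_top (hP : Small P p) (S : Finset P) (hS : closure (S : Set P) = ⊤) :
    Submodule.span (ZMod p) {x : VV hP | ∃ g : P, ∃ t : S,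
      x = rho hP g (mkV hP ((t : P) ^ (p ^ 1)) (pow_mem_pw (mem_top _) _))} = ⊤ := by
  set M := Submodule.span (ZMod p) {x : VV hP | ∃ g : P, ∃ t : S,
      x = rho hP g (mkV hP ((t : P) ^ (p ^ 1)) (pow_mem_pw (mem_top _) _))} with hM
  have hinv : ∀ g : P, ∀ x ∈ M, rho hP g x ∈ M := by
    intro g x hx
    induction hx using Submodule.span_induction with
    | mem x hx =>
      obtain ⟨h, t, rfl⟩ := hx
      refine Submodule.subset_span ⟨g * h, t, ?_⟩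
      rw [map_mul]; rfl
    | zero => rw [map_zero]; exact Submodule.zero_mem _
    | add x y _ _ hx hy => rw [map_add]; exact Submodule.add_mem _ hx hy
    | smul c x _ hx => rw [map_smul]; exact Submodule.smul_mem _ _ hx
  let N : Subgroup P :=
    { carrier := {a | ∃ ha : a ∈ pw (⊤ : Subgroup P) (p ^ 1), mkV hP a ha ∈ M}
      one_mem' := ⟨one_mem _, by
        rw [(mkV_zero hP 1 _).2 (one_mem _)]; exact Submodule.zero_mem _⟩
      mul_mem' := by
        rintro a b ⟨ha, ha'⟩ ⟨hb, hb'⟩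
        exact ⟨mul_mem ha hb, by rw [mkV_mul hP a b ha hb]; exact Submodule.add_mem _ ha' hb'⟩
      inv_mem' := by
        rintro a ⟨ha, ha'⟩
        exact ⟨inv_mem ha, Submodule.neg_mem _ ha'⟩ }
  have hNn : N.Normal := ⟨by
    rintro a ⟨ha, ha'⟩ g
    exact ⟨conj_mem_pw g ha, by rw [← rho_mk hP g a ha]; exact hinv g _ ha'⟩⟩
  have hSN : ∀ t ∈ S, t ^ (p ^ 1) ∈ N := fun t ht =>
    ⟨pow_mem_pw (mem_top _) _, Submodule.subset_span ⟨1, ⟨t, ht⟩, by rw [map_one]; rfl⟩⟩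
  have hexp : ∀ g : P ⧸ N, g ^ (p ^ 1) = 1 := by
    intro g
    refine (small_rg (P ⧸ N)).B ⊤ (quot_class N hP) 1 (QuotientGroup.mk' N '' (S : Set P))
      (fun x _ => mem_top x) ?_ g ?_
    · rintro _ ⟨t, ht, rfl⟩
      exact (QuotientGroup.eq_one_iff _).2 (hSN t ht)
    · rw [← MonoidHom.map_closure, hS,
        Subgroup.map_top_of_surjective _ (QuotientGroup.mk'_surjective N)]
      exact mem_top g
  rw [eq_top_iff]
  intro x _
  obtain ⟨⟨a, ha⟩, rfl⟩ := mk_surj _ x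
  obtain ⟨w, rfl⟩ := hP.mem_pw ha
  have h1 : w ^ (p ^ 1) ∈ N := (QuotientGroup.eq_one_iff _).1 (hexp (w : P ⧸ N))
  exact h1.2

end

end Pool.H67.Esq.TF
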